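import Pool.Agent.W_8c5d11_h73.Hs10
import Pool.Agent.W_8c5d11_h22.L1

/-!
MP_8c5d11_gt: uniqueness, and the rotated horseshoes.
-/

set_option autoImplicit false

open MeasureTheory Metric Set Complex Filter
open scoped ENNReal NNReal Real Topology

namespace Pool.Agent.W_8c5d11_h73

theorem rot_isometry (τ : ℝ) : Isometry (rot τ) := Isometry.of_dist_eq fun z w => by
  rw [dist_eq_norm, dist_eq_norm]
  unfold rot
  rw [← mul_sub, norm_mul, norm_exp_ofReal_mul_I, one_mul]

theorem rot_norm (τ : ℝ) (z : ℂ) : ‖rot τ z‖ = ‖z‖ := by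
  unfold rot
  rw [norm_mul, norm_exp_ofReal_mul_I, one_mul]

theorem rot_rot (τ : ℝ) (z : ℂ) : rot τ (rot (-τ) z) = z := by
  unfold rot
  rw [← mul_assoc, ← Complex.exp_add, show (τ : ℂ) * I + ((-τ : ℝ) : ℂ) * I = 0 by push_cast; ring,
    Complex.exp_zero, one_mul]

/-- a closed subset of a connected set of the same finite length is the whole set -/
theorem eq_of_length {S H : Set ℂ} (hS : IsClosed S) (hne : S.Nonempty) (hSH : S ⊆ H)
    (hH : IsPreconnected H) (hfin : μH[1] H ≠ ⊤) (hle : μH[1] H ≤ μH[1] S) : S = H := by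
  apply subset_antisymm hSH
  intro x hx
  by_contra hxS
  obtain ⟨y, hy⟩ := hne
  obtain ⟨ρ, hρ, hb⟩ := Metric.isOpen_iff.1 hS.isOpen_compl x hxS
  have hyρ : ρ ≤ dist x y := by
    by_contra hcon
    push Not at hcon
    exact hb (by rw [mem_ball, dist_comm]; exact hcon) hy
  have h1 := Pool.Agent.W_8c5d11_h22.half_ball hH hx (hSH hy) hyρ
  have h2 : μH[1] (H ∩ ball x ρ) + μH[1] (H \ ball x ρ) = μH[1] H :=
    measure_inter_add_diff H measurableSet_ball
  have h3 : μH[1] S ≤ μH[1] (H \ ball x ρ) := by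
    apply measure_mono
    intro z hz
    exact ⟨hSH hz, fun hzb => hb hzb hz⟩
  have h4 : μH[1] (H \ ball x ρ) ≠ ⊤ := ne_top_of_le_ne_top hfin (measure_mono sdiff_subset)
  have h5 : μH[1] (H ∩ ball x ρ) + μH[1] (H \ ball x ρ) ≤ 0 + μH[1] (H \ ball x ρ) := by
    rw [h2, zero_add]
    exact hle.trans h3
  have h6 := (ENNReal.add_le_add_iff_right h4).1 h5
  have h7 : ENNReal.ofReal ρ ≤ 0 := h1.trans h6
  rw [nonpos_iff_eq_zero, ENNReal.ofReal_eq_zero] at h7
  linarith

theorem hlen_pos {R r : ℝ} (hr : 0 < r) (hR : r < R) : 0 < hlen R r := by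
  have h1 := M_pos hr hR
  have h2 := (hseg_facts hr hR).1
  rw [hlen_eq]
  linarith

/-- The admissible sets. -/
def Adm (R r : ℝ) (S : Set ℂ) : Prop :=
  IsCompact S ∧ IsConnected S ∧ IsPreconnected (S \ ball 0 (R - r)) ∧
    sphere (0 : ℂ) R ⊆ cthickening r S

theorem adm_lower {R r : ℝ} (hr : 0 < r) (hR : r < R) {S : Set ℂ} (h : Adm R r S) :
    ENNReal.ofReal (hlen R r) ≤ μH[1] S :=
  (lower_main hr hR h.1 h.2.2.1 h.2.2.2).trans (measure_mono sdiff_subset)

theorem unique {R r : ℝ} (hr : 0 < r) (hR : r < R) {S : Set ℂ} (h : Adm R r S)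
    (he : μH[1] S = ENNReal.ofReal (hlen R r)) : ∃ τ : ℝ, S = rot τ '' horseshoe R r := by
  obtain ⟨hS, hSc, hc, hcov⟩ := h
  have hfin : μH[1] S ≠ ⊤ := by rw [he]; exact ENNReal.ofReal_ne_top
  have h1 := lower_main hr hR hS hc hcov
  have h2 : μH[1] (S ∩ ball 0 (R - r)) + μH[1] (S \ ball 0 (R - r)) = μH[1] S :=
    measure_inter_add_diff S measurableSet_ball
  have h3 : μH[1] (S \ ball 0 (R - r)) = ENNReal.ofReal (hlen R r) :=
    le_antisymm (he ▸ measure_mono sdiff_subset) h1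
  have h4 : μH[1] (S ∩ ball 0 (R - r)) = 0 := by
    have h5 : μH[1] (S ∩ ball 0 (R - r)) + ENNReal.ofReal (hlen R r) ≤
        0 + ENNReal.ofReal (hlen R r) := by
      rw [zero_add]
      calc μH[1] (S ∩ ball 0 (R - r)) + ENNReal.ofReal (hlen R r)
          = μH[1] (S ∩ ball 0 (R - r)) + μH[1] (S \ ball 0 (R - r)) := by rw [h3]
        _ = ENNReal.ofReal (hlen R r) := by rw [h2, he]
        _ ≤ ENNReal.ofReal (hlen R r) := le_rfl
    exact nonpos_iff_eq_zero.1 ((ENNReal.add_le_add_iff_right ENNReal.ofReal_ne_top).1 h5)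
  -- a point outside the disc
  have hne : (S \ ball 0 (R - r)).Nonempty := by
    rw [nonempty_iff_ne_empty]
    intro h5
    rw [h5, measure_empty, eq_comm, ENNReal.ofReal_eq_zero] at h3
    linarith [hlen_pos hr hR]
  obtain ⟨y, hyS, hy⟩ := hne
  have hout : ∀ z ∈ S, R - r ≤ ‖z‖ := by
    intro z hz
    by_contra hcon
    push Not at hcon
    rw [mem_ball_zero_iff, not_lt] at hy
    have h5 : R - r - ‖z‖ ≤ dist z y := by
      rw [dist_eq_norm, norm_sub_rev]
      have := norm_sub_norm_le y z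
      linarith
    have h6 := Pool.Agent.W_8c5d11_h22.half_ball hSc.isPreconnected hz hyS h5
    have h7 : S ∩ ball z (R - r - ‖z‖) ⊆ S ∩ ball 0 (R - r) := by
      refine inter_subset_inter_right _ fun x hx => ?_
      rw [mem_ball, dist_eq_norm] at hx
      rw [mem_ball_zero_iff]
      have := norm_sub_norm_le x z
      linarith
    have h8 := h6.trans ((measure_mono h7).trans h4.le)
    rw [nonpos_iff_eq_zero, ENNReal.ofReal_eq_zero] at h8
    linarith
  obtain ⟨ω, t, hE⟩ := exists_ext hr hR hS hSc.isPreconnected hout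
    (fun t => sphere_cov hr hR hS hcov t) he
  refine ⟨t, ?_⟩
  have hlr : μH[1] (rot t '' horseshoe R r) = ENNReal.ofReal (hlen R r) := by
    rw [(rot_isometry t).hausdorffMeasure_image (Or.inl zero_le_one), horseshoe_length hr hR]
  refine eq_of_length hS.isClosed hSc.nonempty (subset_rot hr hR hE) ?_ ?_ ?_
  · exact (horseshoe_connected hr hR).isPreconnected.image _ (rot_isometry t).continuous.continuousOn
  · rw [hlr]
    exact ENNReal.ofReal_ne_top
  · rw [hlr, he]

theorem rot_cov {R r : ℝ} (hr : 0 < r) (hR : r < R) (τ : ℝ) {x : ℂ} (hx : ‖x‖ ≤ R)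
    (h : ‖x‖ = R ∨ R ≤ 2 * r) : x ∈ cthickening r (rot τ '' horseshoe R r) := by
  obtain ⟨y, hy, h1⟩ := cover_all hr hR (x := rot (-τ) x) (by rw [rot_norm]; exact hx)
    (by rw [rot_norm]; exact h)
  refine mem_cthickening_of_dist_le x (rot τ y) r _ (mem_image_of_mem _ hy) ?_
  rw [← rot_rot τ x, (rot_isometry τ).dist_eq, dist_eq_norm]
  exact h1

theorem adm_rot {R r : ℝ} (hr : 0 < r) (hR : r < R) (τ : ℝ) :
    Adm R r (rot τ '' horseshoe R r) ∧
      μH[1] (rot τ '' horseshoe R r) = ENNReal.ofReal (hlen R r) := by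
  have hcon := (horseshoe_connected hr hR).image _ (rot_isometry τ).continuous.continuousOn
  refine ⟨⟨(horseshoe_compact R r).image (rot_isometry τ).continuous, hcon, ?_, ?_⟩, ?_⟩
  · have h1 : rot τ '' horseshoe R r \ ball 0 (R - r) = rot τ '' horseshoe R r := by
      ext z
      constructor
      · exact fun h => h.1
      · intro h
        refine ⟨h, ?_⟩
        obtain ⟨w, hw, rfl⟩ := h
        rw [mem_ball_zero_iff, not_lt, rot_norm]
        exact horseshoe_out hR w hw
    rw [h1]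
    exact hcon.isPreconnected
  · intro x hx
    rw [mem_sphere_zero_iff_norm] at hx
    exact rot_cov hr hR τ hx.le (Or.inl hx)
  · rw [(rot_isometry τ).hausdorffMeasure_image (Or.inl zero_le_one), horseshoe_length hr hR]

end Pool.Agent.W_8c5d11_h73
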