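import Mathlib

/-!
MP_8c5d11_gt: the horseshoe of the circle of radius `R` and the neighbourhood radius `r < R`.
-/

set_option autoImplicit false

open Set Complex
open scoped Real

namespace Pool.Agent.W_8c5d11_h73

/-- The length of the horseshoe: two segments and an arc of the circle of radius `R - r`. -/
noncomputable def hlen (R r : ℝ) : ℝ :=
  2 * (Real.sqrt (R ^ 2 - (R - r) ^ 2) - r) + 2 * (R - r) * (π - Real.arccos ((R - r) / R))

/-- Half of the opening angle of the horseshoe. -/
noncomputable def hang (R r : ℝ) : ℝ := Real.arccos ((R - r) / R)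

/-- Length of each of the two tangent segments of the horseshoe. -/
noncomputable def hseg (R r : ℝ) : ℝ := Real.sqrt (R ^ 2 - (R - r) ^ 2) - r

/-- The arc of the circle of radius `R - r` with angles in `[hang, 2π - hang]`. -/
noncomputable def arcP (R r : ℝ) : Set ℂ :=
  (fun t : ℝ => ((R - r : ℝ) : ℂ) * cexp ((t : ℂ) * I)) '' Icc (hang R r) (2 * π - hang R r)

/-- The tangent segment of length `hseg` which starts at the end of the arc with angle `hang`. -/
noncomputable def segP (R r : ℝ) : Set ℂ :=
  (fun s : ℝ => (((R - r : ℝ) : ℂ) - (s : ℂ) * I) * cexp ((hang R r : ℂ) * I)) '' Icc 0 (hseg R r)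

/-- The tangent segment of length `hseg` which starts at the end of the arc with angle `-hang`. -/
noncomputable def segM (R r : ℝ) : Set ℂ :=
  (fun s : ℝ => (((R - r : ℝ) : ℂ) + (s : ℂ) * I) * cexp (-((hang R r : ℂ) * I))) ''
    Icc 0 (hseg R r)

/-- The horseshoe: an arc of the circle of radius `R - r` and two tangent segments. -/
noncomputable def horseshoe (R r : ℝ) : Set ℂ := arcP R r ∪ segP R r ∪ segM R r

end Pool.Agent.W_8c5d11_h73
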