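import Mathlib

/-!
MP_8c5d11_gt: images of sets under maps which are Lipschitz on countably many measurable pieces, and the
angle of a point outside a disc.
-/

set_option autoImplicit false

open MeasureTheory Metric Set Complex
open scoped ENNReal NNReal Real

namespace Pool.Agent.W_8c5d11_h73

theorem vol_image_le {X ι : Type} [MetricSpace X] [MeasurableSpace X] [BorelSpace X] [Countable ι]
    (S : Set X) (F : X → ℝ) (K : ℝ≥0) (q : X → ι) (hq : ∀ i, MeasurableSet (q ⁻¹' {i}))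
    (hL : ∀ i, LipschitzOnWith K F (S ∩ q ⁻¹' {i})) :
    volume (F '' S) ≤ K * μH[1] S := by
  have h1 : F '' S ⊆ ⋃ i, F '' (S ∩ q ⁻¹' {i}) := by
    rintro y ⟨x, hx, rfl⟩
    exact mem_iUnion.2 ⟨q x, ⟨x, ⟨hx, rfl⟩, rfl⟩⟩
  have h2 : ∀ i, volume (F '' (S ∩ q ⁻¹' {i})) ≤ K * (μH[1].restrict S) (q ⁻¹' {i}) := by
    intro i
    have h := (hL i).hausdorffMeasure_image_le (d := 1) zero_le_one
    rw [ENNReal.rpow_one, hausdorffMeasure_real] at h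
    rw [Measure.restrict_apply (hq i), inter_comm (q ⁻¹' {i}) S]
    exact h
  have h3 : (μH[1].restrict S) (⋃ i, q ⁻¹' {i}) = ∑' i, (μH[1].restrict S) (q ⁻¹' {i}) := by
    refine measure_iUnion ?_ hq
    intro i j hij
    refine Set.disjoint_left.2 fun x hx hx' => hij ?_
    rw [mem_preimage, mem_singleton_iff] at hx hx'
    rw [← hx, ← hx']
  calc volume (F '' S) ≤ volume (⋃ i, F '' (S ∩ q ⁻¹' {i})) := measure_mono h1
    _ ≤ ∑' i, volume (F '' (S ∩ q ⁻¹' {i})) := measure_iUnion_le _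
    _ ≤ ∑' i, K * (μH[1].restrict S) (q ⁻¹' {i}) := ENNReal.tsum_le_tsum h2
    _ = K * (μH[1].restrict S) (⋃ i, q ⁻¹' {i}) := by rw [ENNReal.tsum_mul_left, h3]
    _ ≤ K * (μH[1].restrict S) univ := by gcongr; exact subset_univ _
    _ = K * μH[1] S := by rw [Measure.restrict_apply_univ]

/-- Distance in polar coordinates. -/
theorem polar_dist (ρ σ θ τ : ℝ) :
    ‖(ρ : ℂ) * cexp (θ * I) - (σ : ℂ) * cexp (τ * I)‖ ^ 2 =
      ρ ^ 2 + σ ^ 2 - 2 * ρ * σ * Real.cos (θ - τ) := by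
  rw [← Complex.normSq_eq_norm_sq, Complex.normSq_apply, Complex.exp_mul_I, Complex.exp_mul_I,
    Real.cos_sub]
  simp only [sub_re, sub_im, mul_re, mul_im, add_re, add_im, ofReal_re, ofReal_im, I_re, I_im,
    cos_ofReal_re, cos_ofReal_im, sin_ofReal_re, sin_ofReal_im]
  have h1 := Real.sin_sq_add_cos_sq θ
  have h2 := Real.sin_sq_add_cos_sq τ
  linear_combination ρ ^ 2 * h1 + σ ^ 2 * h2

/-- Outside the disc of radius `a` the function `a * angle` is nearly `1`-Lipschitz. -/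
theorem angle_lip {a ε : ℝ} (ha : 0 < a) (hε : 0 < ε) (hε1 : ε ≤ 1) {ρ σ θ τ : ℝ} (hρ : a ≤ ρ)
    (hσ : a ≤ σ) (h : |θ - τ| ≤ ε) :
    |a * θ - a * τ| ≤ (1 + ε) * ‖(ρ : ℂ) * cexp (θ * I) - (σ : ℂ) * cexp (τ * I)‖ := by
  have h1 := polar_dist ρ σ θ τ
  have h2 := Real.cos_bound (h.trans hε1)
  set δ := θ - τ with hδ
  set n := ‖(ρ : ℂ) * cexp (θ * I) - (σ : ℂ) * cexp (τ * I)‖ with hn
  have hn0 : 0 ≤ n := norm_nonneg _
  have h3 : Real.cos δ ≤ 1 - δ ^ 2 / 2 + |δ| ^ 4 * (5 / 96) := by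
    have := (abs_le.1 h2).2
    linarith
  have h4 : |δ| ^ 4 ≤ δ ^ 2 * ε ^ 2 := by
    have h5 : |δ| ^ 4 = δ ^ 2 * |δ| ^ 2 := by rw [← sq_abs δ]; ring
    rw [h5]
    exact mul_le_mul_of_nonneg_left (pow_le_pow_left₀ (abs_nonneg _) h 2) (sq_nonneg _)
  have h6 : Real.cos δ ≤ 1 := Real.cos_le_one _
  have h7 : 2 * a ^ 2 * (1 - Real.cos δ) ≤ n ^ 2 := by
    rw [h1]
    have h8 : a ^ 2 ≤ ρ * σ := by nlinarith
    nlinarith [sq_nonneg (ρ - σ)]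
  have h9 : a ^ 2 * δ ^ 2 * (1 - 5 / 48 * ε ^ 2) ≤ n ^ 2 := by
    have : a ^ 2 * δ ^ 2 * (1 - 5 / 48 * ε ^ 2) ≤ 2 * a ^ 2 * (1 - Real.cos δ) := by
      have h10 : δ ^ 2 * (1 - 5 / 48 * ε ^ 2) ≤ 2 * (1 - Real.cos δ) := by nlinarith
      nlinarith [sq_nonneg a]
    exact this.trans h7
  have h11 : (a * δ) ^ 2 ≤ ((1 + ε) * n) ^ 2 := by
    have h12 : 1 ≤ (1 + ε) ^ 2 * (1 - 5 / 48 * ε ^ 2) := by
      have e1 : 1 - 5 / 48 * ε ≤ 1 - 5 / 48 * ε ^ 2 := by nlinarith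
      have e2 : (1 + ε) ^ 2 * (1 - 5 / 48 * ε) ≤ (1 + ε) ^ 2 * (1 - 5 / 48 * ε ^ 2) :=
        mul_le_mul_of_nonneg_left e1 (sq_nonneg _)
      have e3 : 1 ≤ (1 + ε) ^ 2 * (1 - 5 / 48 * ε) := by
        have e4 : (1 + ε) ^ 2 * (1 - 5 / 48 * ε) =
          1 + ε * (91 / 48 + 19 / 24 * ε - 5 / 48 * ε ^ 2) := by ring
        rw [e4]
        have e5 : 0 ≤ 91 / 48 + 19 / 24 * ε - 5 / 48 * ε ^ 2 := by nlinarith
        have e6 := mul_nonneg hε.le e5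
        linarith
      exact e3.trans e2
    have h13 : 0 ≤ a ^ 2 * δ ^ 2 := by positivity
    calc (a * δ) ^ 2 = a ^ 2 * δ ^ 2 * 1 := by ring
      _ ≤ a ^ 2 * δ ^ 2 * ((1 + ε) ^ 2 * (1 - 5 / 48 * ε ^ 2)) :=
        mul_le_mul_of_nonneg_left h12 h13
      _ = (1 + ε) ^ 2 * (a ^ 2 * δ ^ 2 * (1 - 5 / 48 * ε ^ 2)) := by ring
      _ ≤ (1 + ε) ^ 2 * n ^ 2 := mul_le_mul_of_nonneg_left h9 (by positivity)
      _ = ((1 + ε) * n) ^ 2 := by ring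
  have h14 : |a * θ - a * τ| = |a * δ| := by rw [hδ]; ring_nf
  rw [h14]
  exact abs_le_of_sq_le_sq h11 (by positivity)

/-- `z ↦ Im (z exp (-α i))` is `1`-Lipschitz. -/
theorem im_lip (α : ℝ) (z w : ℂ) :
    |(z * cexp (-(α * I))).im - (w * cexp (-(α * I))).im| ≤ ‖z - w‖ := by
  have h1 : (z * cexp (-(α * I))).im - (w * cexp (-(α * I))).im =
      ((z - w) * cexp (-(α * I))).im := by
    rw [sub_mul, sub_im]
  rw [h1]
  refine (abs_im_le_norm _).trans ?_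
  rw [norm_mul, show -((α : ℂ) * I) = ((-α : ℝ) : ℂ) * I by push_cast; ring, norm_exp_ofReal_mul_I,
    mul_one]

theorem im_polar (ρ θ α : ℝ) :
    (((ρ : ℂ) * cexp (θ * I)) * cexp (-(α * I))).im = ρ * Real.sin (θ - α) := by
  rw [mul_assoc, ← Complex.exp_add, show (θ : ℂ) * I + -(α * I) = ((θ - α : ℝ) : ℂ) * I by
    push_cast; ring, Complex.exp_mul_I]
  simp only [mul_im, add_re, add_im, mul_re, ofReal_re, ofReal_im, I_re, I_im, cos_ofReal_re,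
    cos_ofReal_im, sin_ofReal_re, sin_ofReal_im]
  ring

end Pool.Agent.W_8c5d11_h73
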