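import Pool.Agent.W_8c5d11_h73.Hs9

/-!
MP_8c5d11_gt, uniqueness: the two ends, and the inclusion in a rotated horseshoe.
-/

set_option autoImplicit false

open MeasureTheory Metric Set Complex Filter
open scoped ENNReal NNReal Real Topology

namespace Pool.Agent.W_8c5d11_h73

/-- Rotation by the angle `τ` about the origin. -/
noncomputable def rot (τ : ℝ) (z : ℂ) : ℂ := cexp ((τ : ℂ) * I) * z

variable {R r ω t : ℝ} {S : Set ℂ}

theorem M_pos (hr : 0 < r) (hR : r < R) : 0 < (R - r) * (2 * π - 2 * hang R r) := by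
  obtain ⟨g1, g2⟩ := hang_facts hr hR
  have hπ := Real.pi_gt_three
  exact mul_pos (by linarith) (by linarith)

theorem exists_val (h : Ext R r S ω t) {y : ℝ} (h1 : -hseg R r ≤ y)
    (h2 : y ≤ (R - r) * (2 * π - 2 * hang R r) + hseg R r) :
    ∃ z ∈ S, Fm (R - r) ω (t + hang R r) (t + 2 * π - hang R r) z = y := by
  have h3 : y ∈ Fm (R - r) ω (t + hang R r) (t + 2 * π - hang R r) '' S := by
    rw [h.img]
    exact ⟨h1, h2⟩
  exact h3

theorem le_of_near {a x M : ℝ} (hM : 0 < M) (h : ∀ η : ℝ, 0 < η → η < M → x ≤ a + η) : x ≤ a := by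
  by_contra hcon
  push Not at hcon
  have h1 := h (min (M / 2) ((x - a) / 2)) (lt_min (by linarith) (by linarith))
    ((min_le_left _ _).trans_lt (by linarith))
  have h2 := min_le_right (M / 2) ((x - a) / 2)
  linarith

theorem zero_point (hr : 0 < r) (hR : r < R) (h : Ext R r S ω t) {z : ℂ} (hz : z ∈ S)
    (hF : Fm (R - r) ω (t + hang R r) (t + 2 * π - hang R r) z = 0) :
    Th ω z = t + hang R r ∧ ‖z‖ = R - r := by
  have ha : 0 < R - r := by linarith
  have hM := M_pos hr hR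
  have hs := (hseg_facts hr hR).1
  have hT : Th ω z = t + hang R r := by
    by_cases h1 : Th ω z ≤ t + hang R r
    · exact (pos_low hr hR h hz h1).2 hF
    · exfalso
      push Not at h1
      by_cases h2 : Th ω z ≤ t + 2 * π - hang R r
      · rw [pos_mid z h1 h2] at hF
        have := mul_pos ha (sub_pos.2 h1)
        linarith
      · push Not at h2
        have := pos_high hr hR h hz h2
        linarith
  refine ⟨hT, le_antisymm ?_ (h.out z hz)⟩
  refine le_of_near hM fun η h1 h2 => ?_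
  obtain ⟨z', hz', hF'⟩ := exists_val h (y := η) (by linarith) (by linarith)
  have h3 := mid_norm hr hR h hz' (by rw [hF']; exact h1) (by rw [hF']; exact h2)
  have h4 := h.star z hz z' hz'
  rw [hF, hF', zero_sub, abs_neg, abs_of_pos h1] at h4
  have h5 := norm_sub_norm_le z z'
  linarith

theorem top_point (hr : 0 < r) (hR : r < R) (h : Ext R r S ω t) {z : ℂ} (hz : z ∈ S)
    (hF : Fm (R - r) ω (t + hang R r) (t + 2 * π - hang R r) z =
      (R - r) * (2 * π - 2 * hang R r)) :
    Th ω z = t + 2 * π - hang R r ∧ ‖z‖ = R - r := by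
  have ha : 0 < R - r := by linarith
  have hM := M_pos hr hR
  have hs := (hseg_facts hr hR).1
  have hT : Th ω z = t + 2 * π - hang R r := by
    by_cases h1 : Th ω z ≤ t + hang R r
    · exfalso
      have := (pos_low hr hR h hz h1).1
      linarith
    · push Not at h1
      by_cases h2 : Th ω z ≤ t + 2 * π - hang R r
      · rw [pos_mid z h1 h2] at hF
        have := mul_left_cancel₀ ha.ne' hF
        linarith
      · exfalso
        push Not at h2
        have := pos_high hr hR h hz h2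
        linarith
  refine ⟨hT, le_antisymm ?_ (h.out z hz)⟩
  refine le_of_near hM fun η h1 h2 => ?_
  obtain ⟨z', hz', hF'⟩ := exists_val h
    (y := (R - r) * (2 * π - 2 * hang R r) - η) (by linarith) (by linarith)
  have h3 := mid_norm hr hR h hz' (by rw [hF']; linarith) (by rw [hF']; linarith)
  have h4 := h.star z hz z' hz'
  rw [hF, hF', sub_sub_cancel, abs_of_pos h1] at h4
  have h5 := norm_sub_norm_le z z'
  linarith

theorem line_form {a α : ℝ} {z : ℂ}
    (h : ‖z - (a : ℂ) * cexp ((α : ℂ) * I)‖ ≤ |(z * cexp (-((α : ℂ) * I))).im|) :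
    z = ((a : ℂ) + (((z * cexp (-((α : ℂ) * I))).im : ℝ) : ℂ) * I) * cexp ((α : ℂ) * I) := by
  set w := z * cexp (-((α : ℂ) * I)) with hw
  have h2 : ‖z - (a : ℂ) * cexp ((α : ℂ) * I)‖ = ‖w - (a : ℂ)‖ := by
    have h3 : w - (a : ℂ) = (z - (a : ℂ) * cexp ((α : ℂ) * I)) * cexp (-((α : ℂ) * I)) := by
      rw [sub_mul, mul_assoc (a : ℂ), ← Complex.exp_add, add_neg_cancel, Complex.exp_zero, mul_one]
    rw [h3, norm_mul, show -((α : ℂ) * I) = ((-α : ℝ) : ℂ) * I by push_cast; ring,
      norm_exp_ofReal_mul_I, mul_one]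
  rw [h2] at h
  have h4 : ‖w - (a : ℂ)‖ ^ 2 ≤ w.im ^ 2 := by
    have h5 := pow_le_pow_left₀ (norm_nonneg _) h 2
    rwa [sq_abs] at h5
  rw [← Complex.normSq_eq_norm_sq, Complex.normSq_apply, sub_re, sub_im, ofReal_re, ofReal_im,
    sub_zero] at h4
  have h5 : (w.re - a) ^ 2 ≤ 0 := by nlinarith
  have h6 : w.re - a = 0 := by
    have := le_antisymm h5 (sq_nonneg _)
    exact pow_eq_zero_iff (two_ne_zero) |>.1 this
  have h7 : w = (a : ℂ) + ((w.im : ℝ) : ℂ) * I := by
    apply Complex.ext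
    · simp
      linarith
    · simp
  rw [← h7, hw, mul_assoc, ← Complex.exp_add, neg_add_cancel, Complex.exp_zero, mul_one]

theorem low_form (hr : 0 < r) (hR : r < R) (h : Ext R r S ω t) {z : ℂ} (hz : z ∈ S)
    (hT : Th ω z ≤ t + hang R r) : z ∈ rot t '' segP R r := by
  have hM := M_pos hr hR
  have hs := (hseg_facts hr hR).1
  obtain ⟨z0, hz0, hF0⟩ := exists_val h (y := 0) (by linarith) (by linarith)
  obtain ⟨hT0, hn0⟩ := zero_point hr hR h hz0 hF0
  have hz0' : z0 = ((R - r : ℝ) : ℂ) * cexp (((t + hang R r : ℝ) : ℂ) * I) := by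
    have h1 := Th_eq ω z0
    rw [hT0, hn0] at h1
    exact h1.symm
  have hFz : Fm (R - r) ω (t + hang R r) (t + 2 * π - hang R r) z =
      (z * cexp (-(((t + hang R r : ℝ) : ℂ) * I))).im := by
    unfold Fm
    rw [if_pos hT]
  have h1 := h.star z hz z0 hz0
  rw [hF0, sub_zero, hFz, hz0'] at h1
  have h2 := line_form h1
  have h3 : Fm (R - r) ω (t + hang R r) (t + 2 * π - hang R r) z ∈
      Fm (R - r) ω (t + hang R r) (t + 2 * π - hang R r) '' S := mem_image_of_mem _ hz
  rw [h.img] at h3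
  have h4 := (pos_low hr hR h hz hT).1
  rw [← hFz] at h2
  refine ⟨(((R - r : ℝ) : ℂ) - ((-Fm (R - r) ω (t + hang R r) (t + 2 * π - hang R r) z : ℝ) : ℂ) * I) *
    cexp ((hang R r : ℂ) * I), ⟨_, ⟨by linarith, by linarith [h3.1]⟩, rfl⟩, ?_⟩
  unfold rot
  conv_rhs => rw [h2]
  rw [show ((t + hang R r : ℝ) : ℂ) * I = (t : ℂ) * I + (hang R r : ℂ) * I by push_cast; ring,
    Complex.exp_add]
  push_cast
  ring

theorem high_form (hr : 0 < r) (hR : r < R) (h : Ext R r S ω t) {z : ℂ} (hz : z ∈ S)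
    (hT : t + 2 * π - hang R r < Th ω z) : z ∈ rot t '' segM R r := by
  have hM := M_pos hr hR
  have hs := (hseg_facts hr hR).1
  obtain ⟨g1, g2⟩ := hang_facts hr hR
  have hπ := Real.pi_gt_three
  obtain ⟨z0, hz0, hF0⟩ := exists_val h (y := (R - r) * (2 * π - 2 * hang R r)) (by linarith)
    (by linarith)
  obtain ⟨hT0, hn0⟩ := top_point hr hR h hz0 hF0
  have hz0' : z0 = ((R - r : ℝ) : ℂ) * cexp (((t + 2 * π - hang R r : ℝ) : ℂ) * I) := by
    have h1 := Th_eq ω z0
    rw [hT0, hn0] at h1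
    exact h1.symm
  have hFz : Fm (R - r) ω (t + hang R r) (t + 2 * π - hang R r) z =
      (R - r) * (2 * π - 2 * hang R r) +
        (z * cexp (-(((t + 2 * π - hang R r : ℝ) : ℂ) * I))).im := by
    rw [Fm_ge (by linarith) hT.le]
    ring
  have h1 := h.star z hz z0 hz0
  rw [hF0, hFz, add_sub_cancel_left, hz0'] at h1
  have h2 := line_form h1
  have h3 : Fm (R - r) ω (t + hang R r) (t + 2 * π - hang R r) z ∈
      Fm (R - r) ω (t + hang R r) (t + 2 * π - hang R r) '' S := mem_image_of_mem _ hz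
  rw [h.img] at h3
  have h4 := pos_high hr hR h hz hT
  rw [hFz] at h3 h4
  refine ⟨(((R - r : ℝ) : ℂ) +
    ((z * cexp (-(((t + 2 * π - hang R r : ℝ) : ℂ) * I))).im : ℂ) * I) *
      cexp (-((hang R r : ℂ) * I)), ⟨_, ⟨by linarith, by linarith [h3.2]⟩, rfl⟩, ?_⟩
  unfold rot
  conv_rhs => rw [h2]
  rw [show ((t + 2 * π - hang R r : ℝ) : ℂ) * I =
    (t : ℂ) * I + ((2 * π - hang R r : ℝ) : ℂ) * I by push_cast; ring,
    Complex.exp_add, exp_sub_two_pi]
  ring

theorem mid_form (hr : 0 < r) (hR : r < R) (h : Ext R r S ω t) {z : ℂ} (hz : z ∈ S)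
    (hT1 : t + hang R r < Th ω z) (hT2 : Th ω z ≤ t + 2 * π - hang R r) :
    z ∈ rot t '' arcP R r := by
  have ha : 0 < R - r := by linarith
  have hFz := pos_mid (R := R) (r := r) z hT1 hT2
  have hn : ‖z‖ = R - r := by
    rcases hT2.eq_or_lt with h1 | h1
    · refine (top_point hr hR h hz ?_).2
      rw [hFz, h1]
      ring
    · refine mid_norm hr hR h hz ?_ ?_
      · rw [hFz]
        exact mul_pos ha (by linarith)
      · rw [hFz]
        exact mul_lt_mul_of_pos_left (by linarith) ha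
  refine ⟨((R - r : ℝ) : ℂ) * cexp (((Th ω z - t : ℝ) : ℂ) * I),
    ⟨Th ω z - t, ⟨by linarith, by linarith⟩, rfl⟩, ?_⟩
  unfold rot
  have h1 := Th_eq ω z
  rw [hn] at h1
  conv_rhs => rw [← h1]
  rw [mul_left_comm, ← Complex.exp_add]
  congr 2
  push_cast
  ring

theorem subset_rot (hr : 0 < r) (hR : r < R) (h : Ext R r S ω t) :
    S ⊆ rot t '' horseshoe R r := by
  intro z hz
  unfold horseshoe
  rw [image_union, image_union]
  by_cases h1 : Th ω z ≤ t + hang R r
  · exact Or.inl (Or.inr (low_form hr hR h hz h1))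
  · push Not at h1
    by_cases h2 : Th ω z ≤ t + 2 * π - hang R r
    · exact Or.inl (Or.inl (mid_form hr hR h hz h1 h2))
    · push Not at h2
      exact Or.inr (high_form hr hR h hz h2)

end Pool.Agent.W_8c5d11_h73
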