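import Pool.Agent.W_8c5d11_h73.Hs1

/-!
MP_8c5d11_gt: the angle function with a cut along a ray.
-/

set_option autoImplicit false

open MeasureTheory Metric Set Complex Filter
open scoped ENNReal NNReal Real Topology

namespace Pool.Agent.W_8c5d11_h73

/-- The angle of `z` in `(ω, ω + 2π]`. -/
noncomputable def Th (ω : ℝ) (z : ℂ) : ℝ :=
  ω + π + (z * cexp (-(((ω + π : ℝ) : ℂ) * I))).arg

theorem Th_eq (ω : ℝ) (z : ℂ) : (‖z‖ : ℂ) * cexp ((Th ω z : ℂ) * I) = z := by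
  set w := z * cexp (-(((ω + π : ℝ) : ℂ) * I)) with hw
  have h1 : ‖w‖ = ‖z‖ := by
    rw [hw, norm_mul, show -(((ω + π : ℝ) : ℂ) * I) = ((-(ω + π) : ℝ) : ℂ) * I by push_cast; ring,
      norm_exp_ofReal_mul_I, mul_one]
  have h2 := norm_mul_exp_arg_mul_I w
  rw [h1] at h2
  have h3 : cexp ((Th ω z : ℂ) * I) = cexp (w.arg * I) * cexp (((ω + π : ℝ) : ℂ) * I) := by
    rw [← Complex.exp_add]
    congr 1
    unfold Th
    rw [← hw]
    push_cast
    ring
  rw [h3, ← mul_assoc, h2, hw, mul_assoc, ← Complex.exp_add, neg_add_cancel, Complex.exp_zero,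
    mul_one]

theorem Th_mem (ω : ℝ) (z : ℂ) : Th ω z ∈ Ioc ω (ω + 2 * π) := by
  unfold Th
  have h1 := neg_pi_lt_arg (z * cexp (-(((ω + π : ℝ) : ℂ) * I)))
  have h2 := arg_le_pi (z * cexp (-(((ω + π : ℝ) : ℂ) * I)))
  constructor <;> linarith

theorem Th_meas (ω : ℝ) : Measurable (Th ω) := by
  unfold Th
  fun_prop

theorem Th_cont (ω : ℝ) {z : ℂ} (hz : ∀ ρ : ℝ, 0 ≤ ρ → z ≠ (ρ : ℂ) * cexp ((ω : ℂ) * I)) :
    ContinuousAt (Th ω) z := by
  unfold Th
  refine continuousAt_const.add ?_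
  have h1 : z * cexp (-(((ω + π : ℝ) : ℂ) * I)) ∈ slitPlane := by
    rw [mem_slitPlane_iff_not_le_zero]
    intro h2
    obtain ⟨hre, him⟩ := Complex.le_def.1 h2
    rw [zero_re] at hre
    rw [zero_im] at him
    set w := z * cexp (-(((ω + π : ℝ) : ℂ) * I)) with hw
    have h3 : w = (w.re : ℂ) := Complex.ext (by simp) (by simpa using him)
    apply hz (-w.re) (by linarith)
    have h4 : z = w * cexp (((ω + π : ℝ) : ℂ) * I) := by
      rw [hw, mul_assoc, ← Complex.exp_add, neg_add_cancel, Complex.exp_zero, mul_one]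
    rw [h4, h3]
    simp only [ofReal_re]
    push_cast
    rw [add_mul, Complex.exp_add, Complex.exp_pi_mul_I]
    ring
  exact ((continuousAt_arg h1).comp (f := fun z : ℂ => z * cexp (-(((ω + π : ℝ) : ℂ) * I)))
    (by fun_prop))

theorem Th_unique (ω : ℝ) {ρ t : ℝ} (hρ : 0 < ρ) (ht : t ∈ Ioc ω (ω + 2 * π)) :
    Th ω ((ρ : ℂ) * cexp ((t : ℂ) * I)) = t := by
  unfold Th
  have h1 : (ρ : ℂ) * cexp ((t : ℂ) * I) * cexp (-(((ω + π : ℝ) : ℂ) * I)) =
      (ρ : ℂ) * cexp (((t - (ω + π) : ℝ) : ℂ) * I) := by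
    rw [mul_assoc, ← Complex.exp_add]
    congr 2
    push_cast
    ring
  rw [h1, Complex.exp_mul_I, arg_mul_cos_add_sin_mul_I hρ]
  · ring
  · constructor <;> linarith [ht.1, ht.2]

/-- A function which is `a` times the angle on one piece and `1`-Lipschitz on the other pieces does
not increase the length of a set outside the disc of radius `a`. -/
theorem vol_le (S : Set ℂ) {a : ℝ} (ha : 0 < a) (ω c : ℝ) (hS : ∀ z ∈ S, a ≤ ‖z‖) (F : ℂ → ℝ)
    (p : ℂ → ℕ) (hp : Measurable p)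
    (h0 : ∀ z w, p z ≠ 1 → p z = p w → |F z - F w| ≤ ‖z - w‖)
    (h1 : ∀ z, p z = 1 → F z = a * Th ω z + c) : volume (F '' S) ≤ μH[1] S := by
  have key : ∀ n : ℕ, volume (F '' S) ≤
      ((1 + 1 / ((n : ℝ≥0) + 1) : ℝ≥0) : ℝ≥0∞) * μH[1] S := by
    intro n
    set ε : ℝ≥0 := 1 / ((n : ℝ≥0) + 1) with hε
    have hε0 : (0 : ℝ) < ε := by rw [hε]; positivity
    have hε1 : (ε : ℝ) ≤ 1 := by
      rw [hε]
      push_cast
      rw [div_le_one (by positivity)]
      have : (0 : ℝ) ≤ n := Nat.cast_nonneg n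
      linarith
    refine vol_image_le S F (1 + ε) (fun z => (p z, ⌊Th ω z / ε⌋)) ?_ ?_
    · rintro ⟨i, k⟩
      have hm : Measurable fun z => (p z, ⌊Th ω z / ε⌋) :=
        hp.prodMk (((Th_meas ω).div_const _).floor)
      exact hm (measurableSet_singleton _)
    · rintro ⟨i, k⟩
      refine LipschitzOnWith.of_dist_le_mul ?_
      rintro z ⟨hz, hqz⟩ w ⟨hw, hqw⟩
      rw [mem_preimage, mem_singleton_iff, Prod.mk.injEq] at hqz hqw
      rw [Real.dist_eq, dist_eq_norm]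
      have hk : ((1 + ε : ℝ≥0) : ℝ) = 1 + (ε : ℝ) := by push_cast; rfl
      rw [hk]
      by_cases hi : i = 1
      · subst hi
        rw [h1 z hqz.1, h1 w hqw.1]
        have h2 : |Th ω z - Th ω w| ≤ ε := by
          have h3 : ⌊Th ω z / ε⌋ = ⌊Th ω w / ε⌋ := by rw [hqz.2, hqw.2]
          have h4 := Int.abs_sub_lt_one_of_floor_eq_floor h3
          rw [← sub_div, abs_div, abs_of_pos hε0, div_lt_one hε0] at h4
          exact h4.le
        have h5 := angle_lip ha hε0 hε1 (hS z hz) (hS w hw) h2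
        rw [Th_eq, Th_eq] at h5
        rw [show a * Th ω z + c - (a * Th ω w + c) = a * Th ω z - a * Th ω w by ring]
        exact h5
      · have h2 := h0 z w (by rw [hqz.1]; exact hi) (by rw [hqz.1, hqw.1])
        refine h2.trans ?_
        have h3 := norm_nonneg (z - w)
        nlinarith
  have hlim : Tendsto (fun n : ℕ => ((1 + 1 / ((n : ℝ≥0) + 1) : ℝ≥0) : ℝ≥0∞) * μH[1] S) atTop
      (𝓝 (((1 + 0 : ℝ≥0) : ℝ≥0∞) * μH[1] S)) := by
    refine ENNReal.Tendsto.mul_const ?_ (Or.inl (by simp))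
    rw [ENNReal.tendsto_coe]
    exact tendsto_const_nhds.add (tendsto_one_div_add_atTop_nhds_zero_nat)
  have h2 := ge_of_tendsto' hlim key
  simpa using h2

end Pool.Agent.W_8c5d11_h73
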