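import Pool.Agent.W_8c5d11_h73.Hs2

/-!
MP_8c5d11_gt: the unrolling map and the lower bound for the length.
-/

set_option autoImplicit false

open MeasureTheory Metric Set Complex Filter
open scoped ENNReal NNReal Real Topology

namespace Pool.Agent.W_8c5d11_h73

theorem exists_int_near {δ φ : ℝ} (hφ0 : 0 ≤ φ) (hφ : φ ≤ π) (h : Real.cos φ ≤ Real.cos δ) :
    ∃ k : ℤ, |δ - k * (2 * π)| ≤ φ := by
  refine ⟨round (δ / (2 * π)), ?_⟩
  have h1 := abs_sub_round (δ / (2 * π))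
  set k := round (δ / (2 * π))
  have hπ := Real.pi_pos
  have h2 : |δ - k * (2 * π)| ≤ π := by
    have h3 : δ - k * (2 * π) = (δ / (2 * π) - k) * (2 * π) := by field_simp
    rw [h3, abs_mul, abs_of_pos (by positivity : (0 : ℝ) < 2 * π)]
    nlinarith
  have h3 : Real.cos |δ - k * (2 * π)| = Real.cos δ := by
    rw [Real.cos_abs, Real.cos_sub_int_mul_two_pi]
  rw [← h3] at h
  exact (Real.strictAntiOn_cos.le_iff_ge ⟨hφ0, hφ⟩ ⟨abs_nonneg _, h2⟩).1 h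

theorem cos_ge {R r ρ δ : ℝ} (hr : 0 < r) (hR : r < R) (hρ : 0 < ρ)
    (h : ρ ^ 2 + R ^ 2 - 2 * ρ * R * Real.cos δ ≤ r ^ 2) : (R - r) / R ≤ Real.cos δ := by
  have hR0 : 0 < R := hr.trans hR
  rw [div_le_iff₀ hR0]
  have h1 : 0 ≤ (ρ - (R - r)) ^ 2 := sq_nonneg _
  have h2 : 0 ≤ r * (R - r) := mul_nonneg hr.le (by linarith)
  have h3 : ρ * (R - r) ≤ ρ * (Real.cos δ * R) := by nlinarith
  exact le_of_mul_le_mul_left h3 hρ

/-- A point `z` which covers the point of the circle with angle `t` has an angle near `t`. -/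
theorem near_angle {R r : ℝ} (hr : 0 < r) (hR : r < R) {z : ℂ} {t θ : ℝ}
    (hz : ‖z - (R : ℂ) * cexp ((t : ℂ) * I)‖ ≤ r) (hθ : (‖z‖ : ℂ) * cexp ((θ : ℂ) * I) = z) :
    ∃ k : ℤ, |θ - t - k * (2 * π)| ≤ Real.arccos ((R - r) / R) := by
  have hR0 : 0 < R := hr.trans hR
  have hz0 : 0 < ‖z‖ := by
    have h1 : ‖(R : ℂ) * cexp ((t : ℂ) * I)‖ = R := by
      rw [norm_mul, norm_exp_ofReal_mul_I, mul_one, Complex.norm_of_nonneg hR0.le]
    have h2 := norm_sub_norm_le ((R : ℂ) * cexp ((t : ℂ) * I)) z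
    rw [norm_sub_rev, h1] at h2
    linarith
  apply exists_int_near (Real.arccos_nonneg _) (Real.arccos_le_pi _)
  rw [Real.cos_arccos]
  · apply cos_ge hr hR hz0
    rw [← polar_dist, hθ]
    exact pow_le_pow_left₀ (norm_nonneg _) hz 2
  · have : 0 ≤ (R - r) / R := div_nonneg (by linarith) hR0.le
    linarith
  · rw [div_le_one hR0]
    linarith

theorem exists_gap {R r ω : ℝ} (hr : 0 < r) (hR : r < R) {S : Set ℂ} (hS : IsCompact S)
    (hc : ContinuousOn (Th ω) S)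
    (hcov : ∀ t : ℝ, ∃ z ∈ S, ‖z - (R : ℂ) * cexp ((t : ℂ) * I)‖ ≤ r) :
    ∃ t : ℝ, (∃ z ∈ S, ‖z - (R : ℂ) * cexp ((t : ℂ) * I)‖ ≤ r ∧
        |Th ω z - t| ≤ Real.arccos ((R - r) / R)) ∧
      ∃ z ∈ S, ‖z - (R : ℂ) * cexp ((t : ℂ) * I)‖ ≤ r ∧
        |Th ω z - (t + 2 * π)| ≤ Real.arccos ((R - r) / R) := by
  have hR0 : 0 < R := hr.trans hR
  have hφ2 : Real.arccos ((R - r) / R) ≤ π / 2 := by
    rw [Real.arccos_le_pi_div_two]
    exact div_nonneg (by linarith) hR0.le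
  set φ := Real.arccos ((R - r) / R) with hφ
  have hφ0 : 0 ≤ φ := Real.arccos_nonneg _
  have hπ := Real.pi_gt_three
  set P : Set ℝ := {t | ∃ z ∈ S, ‖z - (R : ℂ) * cexp ((t : ℂ) * I)‖ ≤ r ∧ |Th ω z - t| ≤ φ} with hP
  have hPb : ∀ t ∈ P, ω - φ ≤ t ∧ t ≤ ω + 2 * π + φ := by
    rintro t ⟨z, -, -, h1⟩
    have h2 := Th_mem ω z
    rw [abs_le] at h1
    constructor <;> linarith [h2.1, h2.2]
  have hPc : IsCompact P := by
    set s : Set (ℝ × ℂ) := Icc (ω - φ) (ω + 2 * π + φ) ×ˢ S with hs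
    have hsc : IsCompact s := isCompact_Icc.prod hS
    have hcf : ContinuousOn (fun q : ℝ × ℂ =>
        ((‖q.2 - (R : ℂ) * cexp ((q.1 : ℂ) * I)‖, |Th ω q.2 - q.1|) : ℝ × ℝ)) s := by
      have h1 : ContinuousOn (fun q : ℝ × ℂ => Th ω q.2) s :=
        hc.comp continuousOn_snd fun q hq => hq.2
      refine ContinuousOn.prodMk ?_ ?_
      · fun_prop
      · exact (h1.sub continuousOn_fst).abs
    have h2 := hcf.preimage_isClosed_of_isClosed hsc.isClosed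
      ((isClosed_Iic (a := r)).prod (isClosed_Iic (a := φ)))
    have h3 : IsCompact (s ∩ (fun q : ℝ × ℂ =>
        ((‖q.2 - (R : ℂ) * cexp ((q.1 : ℂ) * I)‖, |Th ω q.2 - q.1|) : ℝ × ℝ)) ⁻¹'
          (Iic r ×ˢ Iic φ)) := hsc.of_isClosed_subset h2 inter_subset_left
    have h4 : P = Prod.fst '' (s ∩ (fun q : ℝ × ℂ =>
        ((‖q.2 - (R : ℂ) * cexp ((q.1 : ℂ) * I)‖, |Th ω q.2 - q.1|) : ℝ × ℝ)) ⁻¹'
          (Iic r ×ˢ Iic φ)) := by
      ext t
      constructor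
      · intro ht
        have hb := hPb t ht
        obtain ⟨z, hz, h5, h6⟩ := ht
        exact ⟨(t, z), ⟨⟨hb, hz⟩, h5, h6⟩, rfl⟩
      · rintro ⟨⟨t', z⟩, ⟨⟨-, hz⟩, h5, h6⟩, rfl⟩
        exact ⟨z, hz, h5, h6⟩
    rw [h4]
    exact h3.image continuous_fst
  have hper : ∀ (t : ℝ) (k : ℤ), cexp (((t + k * (2 * π) : ℝ) : ℂ) * I) = cexp ((t : ℂ) * I) := by
    intro t k
    rw [Complex.exp_eq_exp_iff_exists_int]
    exact ⟨k, by push_cast; ring⟩
  have hall : ∀ t : ℝ, ∃ k : ℤ, t + k * (2 * π) ∈ P := by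
    intro t
    obtain ⟨z, hz, h1⟩ := hcov t
    obtain ⟨k, hk⟩ := near_angle hr hR h1 (Th_eq ω z)
    refine ⟨k, z, hz, ?_, ?_⟩
    · rw [hper]
      exact h1
    · rw [show Th ω z - (t + k * (2 * π)) = Th ω z - t - k * (2 * π) by ring]
      exact hk
  have hPne : P.Nonempty := by
    obtain ⟨k, hk⟩ := hall 0
    exact ⟨_, hk⟩
  set M := sSup P with hM
  have hMP : M ∈ P := hPc.sSup_mem hPne
  have hMub : ∀ t ∈ P, t ≤ M := fun t ht => le_csSup hPc.bddAbove ht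
  have hMb := hPb M hMP
  have hseq : ∀ n : ℕ, M + 1 / ((n : ℝ) + 1) - 2 * π ∈ P := by
    intro n
    obtain ⟨k, hk⟩ := hall (M + 1 / ((n : ℝ) + 1))
    have hn0 : 0 < 1 / ((n : ℝ) + 1) := by positivity
    have hn1 : 1 / ((n : ℝ) + 1) ≤ 1 := by
      rw [div_le_one (by positivity)]
      have : (0 : ℝ) ≤ n := Nat.cast_nonneg n
      linarith
    have h1 := hMub _ hk
    have h2 := (hPb _ hk).1
    have hk1 : k < 0 := by
      by_contra hcon
      push Not at hcon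
      have h3 : (0 : ℝ) ≤ k := by exact_mod_cast hcon
      nlinarith
    have hk2 : -2 < k := by
      by_contra hcon
      push Not at hcon
      have h3 : (k : ℝ) ≤ -2 := by exact_mod_cast hcon
      have h4 : (k : ℝ) * (2 * π) ≤ -2 * (2 * π) := mul_le_mul_of_nonneg_right h3 (by positivity)
      linarith [hMb.2]
    have hk3 : k = -1 := by omega
    subst hk3
    have h5 : M + 1 / ((n : ℝ) + 1) - 2 * π = M + 1 / ((n : ℝ) + 1) + ((-1 : ℤ) : ℝ) * (2 * π) := by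
      push_cast
      ring
    rw [h5]
    exact hk
  have hlim : M - 2 * π ∈ P := by
    refine hPc.isClosed.mem_of_tendsto (f := fun n : ℕ => M + 1 / ((n : ℝ) + 1) - 2 * π)
      (b := atTop) ?_ (Eventually.of_forall hseq)
    have h1 : Tendsto (fun n : ℕ => M + 1 / ((n : ℝ) + 1) - 2 * π) atTop (𝓝 (M + 0 - 2 * π)) :=
      (tendsto_const_nhds.add tendsto_one_div_add_atTop_nhds_zero_nat).sub tendsto_const_nhds
    simpa using h1
  obtain ⟨z1, hz1, h1, h2⟩ := hlim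
  obtain ⟨z2, hz2, h3, h4⟩ := hMP
  refine ⟨M - 2 * π, ⟨z1, hz1, h1, h2⟩, z2, hz2, ?_, ?_⟩
  · have h5 := hper M (-1)
    rw [show M - 2 * π = M + ((-1 : ℤ) : ℝ) * (2 * π) by push_cast; ring, h5]
    exact h3
  · rw [sub_add_cancel]
    exact h4

end Pool.Agent.W_8c5d11_h73
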