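import Pool.Agent.W_8c5d11_h73.Hs3
import Pool.Agent.W_8c5d11_h73.HsDef

/-!
MP_8c5d11_gt: the lower bound.
-/

set_option autoImplicit false

open MeasureTheory Metric Set Complex Filter
open scoped ENNReal NNReal Real Topology

namespace Pool.Agent.W_8c5d11_h73

/-- The unrolling map. -/
noncomputable def Fm (a ω α β : ℝ) (z : ℂ) : ℝ :=
  if Th ω z ≤ α then (z * cexp (-((α : ℂ) * I))).im
  else if Th ω z ≤ β then a * (Th ω z - α)
  else a * (β - α) + (z * cexp (-((β : ℂ) * I))).im

theorem im_of_Th (ω : ℝ) (z : ℂ) (α : ℝ) (h : Th ω z = α) : (z * cexp (-((α : ℂ) * I))).im = 0 := by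
  have h1 := im_polar ‖z‖ (Th ω z) α
  rw [Th_eq, h, sub_self, Real.sin_zero, mul_zero] at h1
  exact h1

theorem Fm_cont {a ω α β : ℝ} (hαβ : α ≤ β) {S : Set ℂ} (hc : ContinuousOn (Th ω) S) :
    ContinuousOn (Fm a ω α β) S := by
  rw [continuousOn_iff_continuous_restrict] at hc ⊢
  have hc' : Continuous fun z : S => Th ω (z : ℂ) := hc
  have h1 : Continuous fun z : S => if Th ω z ≤ β then a * (Th ω z - α)
      else a * (β - α) + ((z : ℂ) * cexp (-((β : ℂ) * I))).im := by
    refine Continuous.if_le (continuous_const.mul (hc'.sub continuous_const)) (by fun_prop) hc'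
      continuous_const ?_
    intro z hz
    rw [im_of_Th ω z β hz, hz, add_zero]
  show Continuous fun z : S => Fm a ω α β z
  unfold Fm
  refine Continuous.if_le (by fun_prop) h1 hc' continuous_const ?_
  intro z hz
  rw [im_of_Th ω z α hz, hz, if_pos hαβ, sub_self, mul_zero]

theorem Fm_ge {a ω α β : ℝ} (hαβ : α < β) {z : ℂ} (h : β ≤ Th ω z) :
    Fm a ω α β z = a * (β - α) + (z * cexp (-((β : ℂ) * I))).im := by
  unfold Fm
  rw [if_neg (by linarith)]
  rcases h.eq_or_lt with h1 | h1
  · rw [if_pos h1.ge, im_of_Th ω z β h1.symm, ← h1, add_zero]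
  · rw [if_neg (by linarith)]

theorem Fm_vol {a ω α β : ℝ} (ha : 0 < a) (S : Set ℂ) (hS : ∀ z ∈ S, a ≤ ‖z‖) :
    volume (Fm a ω α β '' S) ≤ μH[1] S := by
  refine vol_le S ha ω (-(a * α)) hS (Fm a ω α β)
    (fun z => if Th ω z ≤ α then 0 else if Th ω z ≤ β then 1 else 2) ?_ ?_ ?_
  · exact Measurable.ite (measurableSet_le (Th_meas ω) measurable_const) measurable_const
      (Measurable.ite (measurableSet_le (Th_meas ω) measurable_const) measurable_const
        measurable_const)
  · intro z w h1 h2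
    unfold Fm
    by_cases hz : Th ω z ≤ α
    · rw [if_pos hz] at h2 ⊢
      by_cases hw : Th ω w ≤ α
      · rw [if_pos hw]
        exact im_lip α z w
      · exfalso
        rw [if_neg hw] at h2
        split_ifs at h2 <;> omega
    · rw [if_neg hz] at h1 h2 ⊢
      by_cases hz2 : Th ω z ≤ β
      · rw [if_pos hz2] at h1
        omega
      · rw [if_neg hz2] at h2 ⊢
        by_cases hw : Th ω w ≤ α
        · exfalso
          rw [if_pos hw] at h2
          omega
        · rw [if_neg hw] at h2 ⊢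
          by_cases hw2 : Th ω w ≤ β
          · exfalso
            rw [if_pos hw2] at h2
            omega
          · rw [if_neg hw2, add_sub_add_left_eq_sub]
            exact im_lip β z w
  · intro z h1
    unfold Fm
    by_cases hz : Th ω z ≤ α
    · rw [if_pos hz] at h1
      omega
    · rw [if_neg hz] at h1 ⊢
      by_cases hz2 : Th ω z ≤ β
      · rw [if_pos hz2]
        ring
      · rw [if_neg hz2] at h1
        omega

/-- `Im` of a point of a disc around `R e^{it}`. -/
theorem im_near {R r t : ℝ} {z : ℂ} (hz : ‖z - (R : ℂ) * cexp ((t : ℂ) * I)‖ ≤ r) (α : ℝ) :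
    |(z * cexp (-((α : ℂ) * I))).im - R * Real.sin (t - α)| ≤ r := by
  have h1 := im_lip α z ((R : ℂ) * cexp ((t : ℂ) * I))
  rw [im_polar] at h1
  exact h1.trans hz

theorem arccos_facts {R r : ℝ} (hr : 0 < r) (hR : r < R) :
    0 < Real.arccos ((R - r) / R) ∧ Real.arccos ((R - r) / R) < π / 2 ∧
      R * Real.cos (Real.arccos ((R - r) / R)) = R - r ∧
      R * Real.sin (Real.arccos ((R - r) / R)) = Real.sqrt (R ^ 2 - (R - r) ^ 2) := by
  have hR0 : 0 < R := hr.trans hR
  have h1 : 0 < (R - r) / R := div_pos (by linarith) hR0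
  have h2 : (R - r) / R < 1 := by
    rw [div_lt_one hR0]
    linarith
  refine ⟨Real.arccos_pos.2 h2, Real.arccos_lt_pi_div_two.2 h1, ?_, ?_⟩
  · rw [Real.cos_arccos (by linarith) h2.le]
    field_simp
  · rw [Real.sin_arccos]
    have h3 : R ^ 2 - (R - r) ^ 2 = R ^ 2 * (1 - ((R - r) / R) ^ 2) := by field_simp
    rw [h3, Real.sqrt_mul (sq_nonneg R), Real.sqrt_sq hR0.le]

theorem hlen_lt {R r : ℝ} (hr : 0 < r) (hR : r < R) : hlen R r < 2 * π * (R - r) := by
  obtain ⟨h1, h2, h3, h4⟩ := arccos_facts hr hR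
  unfold hlen
  rw [← h4]
  set φ := Real.arccos ((R - r) / R) with hφ
  have hR0 : 0 < R := hr.trans hR
  set y := φ / 2 with hy
  have hy0 : 0 < y := by rw [hy]; linarith
  have hy1 : y < π / 4 := by rw [hy]; linarith
  have hπ := Real.pi_pos
  have e1 : Real.sin φ = 2 * Real.sin y * Real.cos y := by
    rw [← Real.sin_two_mul]
    congr 1
    rw [hy]; ring
  have e2 : Real.cos φ = 2 * Real.cos y ^ 2 - 1 := by
    rw [← Real.cos_two_mul]
    congr 1
    rw [hy]; ring
  have e3 := Real.sin_sq_add_cos_sq y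
  have e4 : Real.sin y < y := Real.sin_lt hy0
  have e5 : 0 < Real.sin y := Real.sin_pos_of_pos_of_lt_pi hy0 (by linarith)
  have e6 : 0 < Real.cos y := Real.cos_pos_of_mem_Ioo ⟨by linarith, by linarith⟩
  have e7 : 0 < Real.cos φ := by
    rw [Real.cos_arccos]
    · exact div_pos (by linarith) hR0
    · have : 0 < (R - r) / R := div_pos (by linarith) hR0
      linarith
    · rw [div_le_one hR0]; linarith
  have e8 : Real.sin y < Real.cos y := by
    have h5 : 0 < (Real.cos y - Real.sin y) * (Real.cos y + Real.sin y) := by nlinarith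
    have h6 := (pos_iff_pos_of_mul_pos h5).2 (by linarith)
    linarith
  have e9 : 1 ≤ Real.cos y + Real.sin y := by nlinarith [mul_pos e5 e6]
  have e10 : Real.sin y < y * (Real.cos y + Real.sin y) := by nlinarith
  have e11 : 0 < (Real.cos y - Real.sin y) * (y * (Real.cos y + Real.sin y) - Real.sin y) :=
    mul_pos (by linarith) (by linarith)
  have e12 : Real.sin φ - (1 - Real.cos φ) < φ * Real.cos φ := by
    rw [e1, e2, show φ = 2 * y by rw [hy]; ring]
    nlinarith
  have e13 : R * (Real.sin φ - (1 - Real.cos φ)) < R * (φ * Real.cos φ) :=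
    mul_lt_mul_of_pos_left e12 hR0
  nlinarith

/-- The lower bound for sets outside the disc. -/
theorem lower {R r : ℝ} (hr : 0 < r) (hR : r < R) {S : Set ℂ} (hS : IsCompact S)
    (hconn : IsPreconnected S) (hout : ∀ z ∈ S, R - r ≤ ‖z‖)
    (hcov : ∀ t : ℝ, ∃ z ∈ S, ‖z - (R : ℂ) * cexp ((t : ℂ) * I)‖ ≤ r) :
    ENNReal.ofReal (hlen R r) ≤ μH[1] S := by
  have ha : 0 < R - r := by linarith
  by_cases hray : ∃ ω : ℝ, ∀ z ∈ S, ∀ ρ : ℝ, 0 ≤ ρ → z ≠ (ρ : ℂ) * cexp ((ω : ℂ) * I)
  · obtain ⟨ω, hω⟩ := hray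
    have hc : ContinuousOn (Th ω) S := fun z hz => (Th_cont ω (hω z hz)).continuousWithinAt
    obtain ⟨t, ⟨z1, hz1, h1, h2⟩, z2, hz2, h3, h4⟩ := exists_gap hr hR hS hc hcov
    obtain ⟨f1, f2, f3, f4⟩ := arccos_facts hr hR
    set φ := Real.arccos ((R - r) / R) with hφ
    have hπ := Real.pi_gt_three
    have hαβ : t + φ < t + 2 * π - φ := by linarith [Real.pi_pos]
    have hFc := Fm_cont (a := R - r) hαβ.le hc
    have hint := (hconn.image _ hFc).ordConnected.out (mem_image_of_mem _ hz1)
      (mem_image_of_mem _ hz2)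
    have g1 : Fm (R - r) ω (t + φ) (t + 2 * π - φ) z1 ≤ r - R * Real.sin φ := by
      unfold Fm
      rw [if_pos (by linarith [(abs_le.1 h2).2])]
      have h5 := (abs_le.1 (im_near h1 (t + φ))).2
      rw [show t - (t + φ) = -φ by ring, Real.sin_neg] at h5
      linarith
    have g2 : (R - r) * (t + 2 * π - φ - (t + φ)) + (R * Real.sin φ - r) ≤
        Fm (R - r) ω (t + φ) (t + 2 * π - φ) z2 := by
      rw [Fm_ge hαβ (by linarith [(abs_le.1 h4).1])]
      have h5 := (abs_le.1 (im_near h3 (t + 2 * π - φ))).1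
      rw [show t - (t + 2 * π - φ) = φ - 2 * π by ring, Real.sin_sub_two_pi] at h5
      linarith
    calc ENNReal.ofReal (hlen R r) = volume (Icc (r - R * Real.sin φ)
          ((R - r) * (t + 2 * π - φ - (t + φ)) + (R * Real.sin φ - r))) := by
          rw [Real.volume_Icc]
          congr 1
          unfold hlen
          rw [← hφ, ← f4]
          ring
      _ ≤ volume (Icc (Fm (R - r) ω (t + φ) (t + 2 * π - φ) z1)
          (Fm (R - r) ω (t + φ) (t + 2 * π - φ) z2)) := measure_mono (Icc_subset_Icc g1 g2)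
      _ ≤ volume (Fm (R - r) ω (t + φ) (t + 2 * π - φ) '' S) := measure_mono hint
      _ ≤ μH[1] S := Fm_vol ha S hout
  · push Not at hray
    have h1 : Ioc 0 (2 * π * (R - r)) ⊆ (fun z => (R - r) * Th 0 z) '' S := by
      intro y hy
      obtain ⟨z, hz, ρ, hρ, hzρ⟩ := hray (y / (R - r))
      refine ⟨z, hz, ?_⟩
      have h2 : 0 < ρ := by
        rcases hρ.eq_or_lt with h3 | h3
        · exfalso
          have h4 := hout z hz
          rw [hzρ, ← h3] at h4
          simp at h4
          linarith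
        · exact h3
      have h3 : Th 0 z = y / (R - r) := by
        rw [hzρ]
        apply Th_unique 0 h2
        constructor
        · exact div_pos hy.1 ha
        · rw [div_le_iff₀ ha, zero_add]
          exact hy.2
      show (R - r) * Th 0 z = y
      rw [h3]
      field_simp
    calc ENNReal.ofReal (hlen R r) ≤ ENNReal.ofReal (2 * π * (R - r)) :=
          ENNReal.ofReal_le_ofReal (hlen_lt hr hR).le
      _ = volume (Ioc 0 (2 * π * (R - r))) := by rw [Real.volume_Ioc, sub_zero]
      _ ≤ volume ((fun z => (R - r) * Th 0 z) '' S) := measure_mono h1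
      _ ≤ μH[1] S := by
        refine vol_le S ha 0 0 hout _ (fun _ => 1) measurable_const ?_ ?_
        · intro z w h2 _
          exact absurd rfl h2
        · intro z _
          rw [add_zero]

end Pool.Agent.W_8c5d11_h73
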