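import Pool.Agent.W_8c5d11_h73.Hs4

/-!
MP_8c5d11_gt: the horseshoe.
-/

set_option autoImplicit false

open MeasureTheory Metric Set Complex Filter
open scoped ENNReal NNReal Real Topology ComplexConjugate

namespace Pool.Agent.W_8c5d11_h73

theorem hseg_facts {R r : ℝ} (hr : 0 < r) (hR : r < R) :
    0 ≤ hseg R r ∧ (hseg R r + r) ^ 2 = r * (R + (R - r)) := by
  have h1 : (hseg R r + r) ^ 2 = r * (R + (R - r)) := by
    unfold hseg
    rw [sub_add_cancel, Real.sq_sqrt]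
    · ring
    · nlinarith
  refine ⟨?_, h1⟩
  unfold hseg
  rw [sub_nonneg]
  apply Real.le_sqrt_of_sq_le
  nlinarith

theorem hlen_eq (R r : ℝ) : hlen R r = 2 * hseg R r + 2 * (R - r) * (π - hang R r) := rfl

theorem horseshoe_compact (R r : ℝ) : IsCompact (horseshoe R r) := by
  refine ((isCompact_Icc.image ?_).union (isCompact_Icc.image ?_)).union
    (isCompact_Icc.image ?_) <;> fun_prop

theorem exp_sub_two_pi (φ : ℝ) : cexp (((2 * π - φ : ℝ) : ℂ) * I) = cexp (-((φ : ℂ) * I)) := by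
  rw [Complex.exp_eq_exp_iff_exists_int]
  exact ⟨1, by push_cast; ring⟩

theorem horseshoe_connected {R r : ℝ} (hr : 0 < r) (hR : r < R) : IsConnected (horseshoe R r) := by
  obtain ⟨f1, f2, f3, f4⟩ := arccos_facts hr hR
  obtain ⟨g1, g2⟩ := hseg_facts hr hR
  have hφ : hang R r ≤ 2 * π - hang R r := by
    unfold hang
    linarith [Real.pi_pos]
  have c1 : IsConnected (arcP R r) := (isConnected_Icc hφ).image _ (by fun_prop)
  have c2 : IsConnected (segP R r) := (isConnected_Icc g1).image _ (by fun_prop)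
  have c3 : IsConnected (segM R r) := (isConnected_Icc g1).image _ (by fun_prop)
  have c4 : IsConnected (arcP R r ∪ segP R r) := by
    refine IsConnected.union ⟨((R - r : ℝ) : ℂ) * cexp ((hang R r : ℂ) * I), ?_, ?_⟩ c1 c2
    · exact ⟨hang R r, ⟨le_rfl, hφ⟩, rfl⟩
    · exact ⟨0, ⟨le_rfl, g1⟩, by simp⟩
  refine IsConnected.union ⟨((R - r : ℝ) : ℂ) * cexp (-((hang R r : ℂ) * I)), ?_, ?_⟩ c4 c3
  · refine Or.inl ⟨2 * π - hang R r, ⟨hφ, le_rfl⟩, ?_⟩
    show ((R - r : ℝ) : ℂ) * cexp (((2 * π - hang R r : ℝ) : ℂ) * I) = _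
    rw [exp_sub_two_pi]
  · exact ⟨0, ⟨le_rfl, g1⟩, by simp⟩

theorem norm_seg (a s : ℝ) (θ : ℝ) (ha : 0 ≤ a) :
    a ≤ ‖((a : ℂ) + (s : ℂ) * I) * cexp ((θ : ℂ) * I)‖ := by
  rw [norm_mul, norm_exp_ofReal_mul_I, mul_one]
  have h1 := Complex.abs_re_le_norm ((a : ℂ) + (s : ℂ) * I)
  have h2 : ((a : ℂ) + (s : ℂ) * I).re = a := by simp
  rw [h2, abs_of_nonneg ha] at h1
  exact h1

theorem horseshoe_out {R r : ℝ} (hR : r < R) : ∀ z ∈ horseshoe R r, R - r ≤ ‖z‖ := by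
  have ha : 0 ≤ R - r := by linarith
  rintro z ((⟨t, -, rfl⟩ | ⟨s, -, rfl⟩) | ⟨s, -, rfl⟩)
  · show R - r ≤ ‖((R - r : ℝ) : ℂ) * cexp ((t : ℂ) * I)‖
    rw [norm_mul, norm_exp_ofReal_mul_I, mul_one, Complex.norm_of_nonneg ha]
  · have h := norm_seg (R - r) (-s) (hang R r) ha
    show R - r ≤ ‖(((R - r : ℝ) : ℂ) - (s : ℂ) * I) * cexp ((hang R r : ℂ) * I)‖
    rwa [show (((R - r : ℝ) : ℂ) - (s : ℂ) * I) = ((R - r : ℝ) : ℂ) + ((-s : ℝ) : ℂ) * I by
      push_cast; ring]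
  · have h := norm_seg (R - r) s (-hang R r) ha
    show R - r ≤ ‖(((R - r : ℝ) : ℂ) + (s : ℂ) * I) * cexp (-((hang R r : ℂ) * I))‖
    rwa [show -((hang R r : ℂ) * I) = ((-hang R r : ℝ) : ℂ) * I by push_cast; ring]

theorem arc_lip {a : ℝ} (ha : 0 ≤ a) (t s : ℝ) :
    ‖(a : ℂ) * cexp ((t : ℂ) * I) - (a : ℂ) * cexp ((s : ℂ) * I)‖ ≤ a * |t - s| := by
  have h1 := polar_dist a a t s
  have h2 := Real.one_sub_sq_div_two_le_cos (x := t - s)
  refine abs_le_of_sq_le_sq' ?_ (by positivity) |>.2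
  rw [h1, mul_pow, sq_abs]
  nlinarith [sq_nonneg a]

theorem image_le {K : ℝ≥0} {f : ℝ → ℂ} (hf : ∀ x y, ‖f x - f y‖ ≤ K * |x - y|) (u v : ℝ) :
    μH[1] (f '' Icc u v) ≤ ENNReal.ofReal (K * (v - u)) := by
  have h1 : LipschitzWith K f := LipschitzWith.of_dist_le_mul fun x y => by
    rw [dist_eq_norm, Real.dist_eq]
    exact hf x y
  have h2 := h1.hausdorffMeasure_image_le (d := 1) zero_le_one (Icc u v)
  rw [ENNReal.rpow_one, hausdorffMeasure_real, Real.volume_Icc] at h2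
  rw [ENNReal.ofReal_mul (NNReal.coe_nonneg K), ENNReal.ofReal_coe_nnreal]
  exact h2

theorem horseshoe_le {R r : ℝ} (hr : 0 < r) (hR : r < R) :
    μH[1] (horseshoe R r) ≤ ENNReal.ofReal (hlen R r) := by
  obtain ⟨f1, f2, f3, f4⟩ := arccos_facts hr hR
  obtain ⟨g1, g2⟩ := hseg_facts hr hR
  have ha : 0 ≤ R - r := by linarith
  have e1 : μH[1] (arcP R r) ≤ ENNReal.ofReal ((R - r) * (2 * π - hang R r - hang R r)) := by
    have h := image_le (K := ⟨R - r, ha⟩)
      (f := fun t : ℝ => ((R - r : ℝ) : ℂ) * cexp ((t : ℂ) * I)) (fun x y => arc_lip ha x y)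
      (hang R r) (2 * π - hang R r)
    exact h
  have e2 : μH[1] (segP R r) ≤ ENNReal.ofReal (hseg R r) := by
    have h := image_le (K := 1)
      (f := fun s : ℝ => (((R - r : ℝ) : ℂ) - (s : ℂ) * I) * cexp ((hang R r : ℂ) * I))
      (fun x y => by
        rw [← sub_mul, norm_mul, norm_exp_ofReal_mul_I, mul_one,
          show ((R - r : ℝ) : ℂ) - (x : ℂ) * I - (((R - r : ℝ) : ℂ) - (y : ℂ) * I) =
            ((y - x : ℝ) : ℂ) * I by push_cast; ring, norm_mul, norm_I, mul_one,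
          Complex.norm_real, Real.norm_eq_abs, abs_sub_comm]
        simp) 0 (hseg R r)
    rw [NNReal.coe_one, one_mul, sub_zero] at h
    exact h
  have e3 : μH[1] (segM R r) ≤ ENNReal.ofReal (hseg R r) := by
    have h := image_le (K := 1)
      (f := fun s : ℝ => (((R - r : ℝ) : ℂ) + (s : ℂ) * I) * cexp (-((hang R r : ℂ) * I)))
      (fun x y => by
        rw [← sub_mul, norm_mul,
          show -((hang R r : ℂ) * I) = ((-hang R r : ℝ) : ℂ) * I by push_cast; ring,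
          norm_exp_ofReal_mul_I, mul_one,
          show ((R - r : ℝ) : ℂ) + (x : ℂ) * I - (((R - r : ℝ) : ℂ) + (y : ℂ) * I) =
            ((x - y : ℝ) : ℂ) * I by push_cast; ring, norm_mul, norm_I, mul_one,
          Complex.norm_real, Real.norm_eq_abs]
        simp) 0 (hseg R r)
    rw [NNReal.coe_one, one_mul, sub_zero] at h
    exact h
  have hφ : hang R r ≤ π := by
    unfold hang
    linarith [Real.pi_pos]
  calc μH[1] (horseshoe R r) ≤ μH[1] (arcP R r) + μH[1] (segP R r) + μH[1] (segM R r) :=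
        (measure_union_le _ _).trans (by gcongr; exact measure_union_le _ _)
    _ ≤ ENNReal.ofReal ((R - r) * (2 * π - hang R r - hang R r)) + ENNReal.ofReal (hseg R r) +
        ENNReal.ofReal (hseg R r) := by gcongr
    _ = ENNReal.ofReal (hlen R r) := by
      rw [← ENNReal.ofReal_add (by nlinarith) g1, ← ENNReal.ofReal_add (by nlinarith) g1, hlen_eq]
      congr 1
      ring

end Pool.Agent.W_8c5d11_h73
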