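import Pool.Agent.W_8c5d11_h73.Hs5

/-!
MP_8c5d11_gt: the horseshoe covers the circle, and the disc if `R ≤ 2r`.
-/

set_option autoImplicit false

open MeasureTheory Metric Set Complex Filter
open scoped ENNReal NNReal Real Topology ComplexConjugate

namespace Pool.Agent.W_8c5d11_h73

/-- the point of the circle: covered by the end point of the segment -/
theorem end_sphere {R r m c s C : ℝ} (hr : 0 < r) (hR : r < R) (hm : 0 ≤ m)
    (hm2 : (m + r) ^ 2 = r * (R + (R - r))) (hC : R * C = R - r) (hcs : s ^ 2 + c ^ 2 = 1)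
    (hcC : C ≤ c) (hs1 : m ≤ R * s) (hs2 : R * s ≤ m + r) :
    (R * c - (R - r)) ^ 2 + (R * s - m) ^ 2 ≤ r ^ 2 := by
  have hR0 : 0 < R := hr.trans hR
  have hC0 : 0 < C := by
    by_contra hcon
    push Not at hcon
    nlinarith
  set u := R * s with hu
  have hc1 : c ≤ 1 := by nlinarith [sq_nonneg s]
  -- `1 - c ≤ s ^ 2 / (1 + C)`
  have h1 : (1 - c) * (1 + C) ≤ s ^ 2 := by
    have h2 : s ^ 2 = (1 - c) * (1 + c) := by nlinarith
    rw [h2]
    exact mul_le_mul_of_nonneg_left (by linarith) (by linarith)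
  -- `2 a u ^ 2 ≤ (R + a) m (2 u - m)`
  have h3 : 2 * (R - r) * u ^ 2 ≤ (R + (R - r)) * m * (2 * u - m) := by
    have h4 : r * (2 * (R - r) * u ^ 2 - (R + (R - r)) * m * (2 * u - m)) =
        -(r * m ^ 2 * (m + r - u)) - 2 * (R - r) * (u - m) * (m + r - u) * r +
          (u - m) * (2 * (R - r) * (m + r) ^ 2 - (R + (R - r)) * m * (2 * (m + r) - m)) := by
      ring
    have h5 : 2 * (R - r) * (m + r) ^ 2 - (R + (R - r)) * m * (2 * (m + r) - m) = 0 := by
      have h6 : (R + (R - r)) * m * (2 * (m + r) - m) =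
          (R + (R - r)) * ((m + r) ^ 2 - r ^ 2) := by ring
      rw [h6, hm2]
      ring
    rw [h5, mul_zero, add_zero] at h4
    have h7 : 0 ≤ r * m ^ 2 * (m + r - u) := by
      have : 0 ≤ m + r - u := by linarith
      positivity
    have h8 : 0 ≤ 2 * (R - r) * (u - m) * (m + r - u) * r := by
      have e1 : 0 ≤ R - r := by linarith
      have e2 : 0 ≤ u - m := by linarith
      have e3 : 0 ≤ m + r - u := by linarith
      positivity
    have h9 : r * (2 * (R - r) * u ^ 2 - (R + (R - r)) * m * (2 * u - m)) ≤ 0 := by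
      rw [h4]
      linarith
    by_contra hcon
    push Not at hcon
    have := mul_pos hr (sub_pos.2 hcon)
    linarith
  -- conclusion
  have h10 : 2 * (R - r) * R * (1 - c) ≤ m * (2 * u - m) := by
    have h11 : (1 - c) * (R * (R + (R - r))) ≤ u ^ 2 := by
      have h12 : R ^ 2 * ((1 - c) * (1 + C)) ≤ R ^ 2 * s ^ 2 :=
        mul_le_mul_of_nonneg_left h1 (sq_nonneg R)
      have h13 : R ^ 2 * ((1 - c) * (1 + C)) = (1 - c) * (R * (R + R * C)) := by ring
      rw [h13, hC] at h12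
      have h14 : R ^ 2 * s ^ 2 = u ^ 2 := by rw [hu]; ring
      linarith
    have h15 : (R + (R - r)) * (2 * (R - r) * R * (1 - c)) ≤
        (R + (R - r)) * (m * (2 * u - m)) := by
      have h16 : 2 * (R - r) * ((1 - c) * (R * (R + (R - r)))) ≤ 2 * (R - r) * u ^ 2 :=
        mul_le_mul_of_nonneg_left h11 (by linarith)
      nlinarith
    exact le_of_mul_le_mul_left h15 (by linarith)
  have h17 : (R * c - (R - r)) ^ 2 + (u - m) ^ 2 =
      r ^ 2 + (2 * (R - r) * R * (1 - c) - m * (2 * u - m)) + (R ^ 2 * (s ^ 2 + c ^ 2) - R ^ 2) := by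
    rw [hu]
    ring
  rw [h17, hcs]
  linarith

/-- the points of the disc in the shadow of the end point -/
theorem end_disc {R r m c s C ρ : ℝ} (hr : 0 < r) (hR : r < R) (hm : 0 ≤ m)
    (hm2 : (m + r) ^ 2 = r * (R + (R - r))) (hC : R * C = R - r) (hcs : s ^ 2 + c ^ 2 = 1)
    (hcC : C ≤ c) (hs0 : 0 ≤ s) (hs2 : R * s ≤ m + r) (hρ : ρ ≤ R) (hρ1 : m ≤ ρ * s)
    (hρ0 : 0 ≤ ρ) (h2 : ρ = R ∨ R ≤ 2 * r) :
    (ρ * c - (R - r)) ^ 2 + (ρ * s - m) ^ 2 ≤ r ^ 2 := by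
  have hR0 : 0 < R := hr.trans hR
  have hRs : m ≤ R * s := hρ1.trans (mul_le_mul_of_nonneg_right hρ hs0)
  have key := end_sphere hr hR hm hm2 hC hcs hcC hRs hs2
  rcases h2 with h2 | h2
  · rw [h2]
    exact key
  · have hc1 : c ≤ 1 := by nlinarith [sq_nonneg s]
    have hC0 : 0 < C := by
      by_contra hcon
      push Not at hcon
      nlinarith
    rcases hs0.eq_or_lt with hs | hs
    · subst hs
      have hm0 : m = 0 := by linarith
      have hc : c = 1 := by nlinarith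
      subst hc
      rw [hm0]
      nlinarith
    · set ρ0 := m / s with hρ0'
      have e1 : ρ0 * s = m := by rw [hρ0']; field_simp
      have e2 : ρ0 ≤ ρ := by rw [hρ0', div_le_iff₀ hs]; exact hρ1
      have e3 : 0 ≤ ρ0 := div_nonneg hm hs.le
      have e4 : (ρ0 * c - (R - r)) ^ 2 + (ρ0 * s - m) ^ 2 ≤ r ^ 2 := by
        rw [e1, sub_self]
        have e5 : 0 ≤ ρ0 * c := mul_nonneg e3 (by linarith)
        have e6 : ρ0 * c ≤ R := by nlinarith
        nlinarith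
      rcases hρ.eq_or_lt with h3 | h3
      · rw [h3]
        exact key
      · have e7 : 0 < R - ρ0 := by linarith
        have e8 : (R - ρ0) * ((ρ * c - (R - r)) ^ 2 + (ρ * s - m) ^ 2) =
            (R - ρ) * ((ρ0 * c - (R - r)) ^ 2 + (ρ0 * s - m) ^ 2) +
            (ρ - ρ0) * ((R * c - (R - r)) ^ 2 + (R * s - m) ^ 2) -
            (ρ - ρ0) * (R - ρ) * (R - ρ0) * (s ^ 2 + c ^ 2) := by ring
        have e9 : (R - ρ0) * ((ρ * c - (R - r)) ^ 2 + (ρ * s - m) ^ 2) ≤ (R - ρ0) * r ^ 2 := by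
          rw [e8, hcs, mul_one]
          have f1 := mul_le_mul_of_nonneg_left e4 (by linarith : 0 ≤ R - ρ)
          have f2 := mul_le_mul_of_nonneg_left key (by linarith : 0 ≤ ρ - ρ0)
          have f3 : 0 ≤ (ρ - ρ0) * (R - ρ) * (R - ρ0) :=
            mul_nonneg (mul_nonneg (by linarith) (by linarith)) e7.le
          nlinarith
        exact le_of_mul_le_mul_left e9 e7

theorem dist_seg (a s ρ φ θ : ℝ) :
    ‖(ρ : ℂ) * cexp ((θ : ℂ) * I) - ((a : ℂ) - (s : ℂ) * I) * cexp ((φ : ℂ) * I)‖ ^ 2 =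
      (ρ * Real.cos (φ - θ) - a) ^ 2 + (ρ * Real.sin (φ - θ) - s) ^ 2 := by
  rw [← Complex.normSq_eq_norm_sq, Complex.normSq_apply, Complex.exp_mul_I, Complex.exp_mul_I,
    Real.cos_sub, Real.sin_sub]
  simp only [sub_re, sub_im, mul_re, mul_im, add_re, add_im, ofReal_re, ofReal_im, I_re, I_im,
    cos_ofReal_re, cos_ofReal_im, sin_ofReal_re, sin_ofReal_im]
  have h1 := Real.sin_sq_add_cos_sq θ
  have h2 := Real.sin_sq_add_cos_sq φ
  have h3 : Real.sin φ ^ 2 = 1 - Real.cos φ ^ 2 := by linarith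
  have h4 : Real.sin θ ^ 2 = 1 - Real.cos θ ^ 2 := by linarith
  ring_nf
  rw [h3, h4]
  ring

/-- covering of the upper half plane -/
theorem cover_upper {R r ρ θ : ℝ} (hr : 0 < r) (hR : r < R) (hρ0 : 0 ≤ ρ) (hρ : ρ ≤ R)
    (h2 : ρ = R ∨ R ≤ 2 * r) (hθ0 : 0 ≤ θ) (hθ : θ ≤ π) :
    ∃ y ∈ horseshoe R r, ‖(ρ : ℂ) * cexp ((θ : ℂ) * I) - y‖ ≤ r := by
  obtain ⟨f1, f2, f3, f4⟩ := arccos_facts hr hR
  obtain ⟨g1, g2⟩ := hseg_facts hr hR
  have hR0 : 0 < R := hr.trans hR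
  have hπ := Real.pi_pos
  have hseg_eq : R * Real.sin (hang R r) = hseg R r + r := by
    unfold hseg hang
    rw [f4]
    ring
  by_cases hθφ : hang R r ≤ θ
  · refine ⟨((R - r : ℝ) : ℂ) * cexp ((θ : ℂ) * I), Or.inl (Or.inl ⟨θ, ⟨hθφ, ?_⟩, rfl⟩), ?_⟩
    · unfold hang
      linarith
    · rw [← sub_mul, norm_mul, norm_exp_ofReal_mul_I, mul_one, ← ofReal_sub, Complex.norm_real,
        Real.norm_eq_abs, abs_le]
      rcases h2 with h2 | h2
      · constructor <;> linarith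
      · constructor <;> linarith
  · push Not at hθφ
    set ψ := hang R r - θ with hψ
    have hψ0 : 0 < ψ := by linarith
    have hψ1 : ψ ≤ hang R r := by linarith
    have hφ2 : hang R r < π / 2 := f2
    have hs0 : 0 ≤ Real.sin ψ := Real.sin_nonneg_of_nonneg_of_le_pi hψ0.le (by linarith)
    have hs1 : Real.sin ψ ≤ Real.sin (hang R r) :=
      Real.sin_le_sin_of_le_of_le_pi_div_two (by linarith) hφ2.le hψ1
    have hc1 : Real.cos (hang R r) ≤ Real.cos ψ :=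
      Real.cos_le_cos_of_nonneg_of_le_pi hψ0.le (by linarith) hψ1
    have hcs := Real.sin_sq_add_cos_sq ψ
    have hC : R * Real.cos (hang R r) = R - r := f3
    have hc0 : 0 < Real.cos ψ := Real.cos_pos_of_mem_Ioo ⟨by linarith, by linarith⟩
    have hRs : R * Real.sin ψ ≤ hseg R r + r := by
      rw [← hseg_eq]
      exact mul_le_mul_of_nonneg_left hs1 hR0.le
    by_cases hm : ρ * Real.sin ψ ≤ hseg R r
    · refine ⟨(((R - r : ℝ) : ℂ) - ((ρ * Real.sin ψ : ℝ) : ℂ) * I) * cexp ((hang R r : ℂ) * I),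
        Or.inl (Or.inr ⟨ρ * Real.sin ψ, ⟨mul_nonneg hρ0 hs0, hm⟩, rfl⟩), ?_⟩
      refine abs_le_of_sq_le_sq' ?_ hr.le |>.2
      rw [dist_seg, ← hψ, sub_self]
      have hc2 : Real.cos ψ ≤ 1 := Real.cos_le_one ψ
      have e1 : ρ * Real.cos ψ ≤ R := by nlinarith
      have e2 : (R - r) - r ≤ ρ * Real.cos ψ := by
        rcases h2 with h2 | h2
        · rw [h2]
          nlinarith
        · have : 0 ≤ ρ * Real.cos ψ := mul_nonneg hρ0 hc0.le
          linarith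
      nlinarith
    · push Not at hm
      refine ⟨(((R - r : ℝ) : ℂ) - (hseg R r : ℂ) * I) * cexp ((hang R r : ℂ) * I),
        Or.inl (Or.inr ⟨hseg R r, ⟨g1, le_rfl⟩, rfl⟩), ?_⟩
      refine abs_le_of_sq_le_sq' ?_ hr.le |>.2
      rw [dist_seg, ← hψ]
      exact end_disc hr hR g1 g2 hC hcs hc1 hs0 hRs hρ hm.le hρ0 h2

theorem horseshoe_conj {R r : ℝ} {z : ℂ} (hz : z ∈ horseshoe R r) : conj z ∈ horseshoe R r := by
  have hI : ∀ t : ℝ, conj ((t : ℂ) * I) = -((t : ℂ) * I) := by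
    intro t
    rw [map_mul, conj_ofReal, conj_I]
    ring
  have hI' : ∀ t : ℝ, conj (-((t : ℂ) * I)) = (t : ℂ) * I := by
    intro t
    rw [map_neg, hI, neg_neg]
  rcases hz with (⟨t, ht, rfl⟩ | ⟨s, hs, rfl⟩) | ⟨s, hs, rfl⟩
  · refine Or.inl (Or.inl ⟨2 * π - t, ⟨by linarith [ht.2], by linarith [ht.1]⟩, ?_⟩)
    show ((R - r : ℝ) : ℂ) * cexp (((2 * π - t : ℝ) : ℂ) * I) =
      conj (((R - r : ℝ) : ℂ) * cexp ((t : ℂ) * I))
    rw [exp_sub_two_pi, map_mul, conj_ofReal, ← exp_conj, hI]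
  · refine Or.inr ⟨s, hs, ?_⟩
    show (((R - r : ℝ) : ℂ) + (s : ℂ) * I) * cexp (-((hang R r : ℂ) * I)) =
      conj ((((R - r : ℝ) : ℂ) - (s : ℂ) * I) * cexp ((hang R r : ℂ) * I))
    rw [map_mul, ← exp_conj, hI, map_sub, hI, conj_ofReal, sub_neg_eq_add]
  · refine Or.inl (Or.inr ⟨s, hs, ?_⟩)
    show (((R - r : ℝ) : ℂ) - (s : ℂ) * I) * cexp ((hang R r : ℂ) * I) =
      conj ((((R - r : ℝ) : ℂ) + (s : ℂ) * I) * cexp (-((hang R r : ℂ) * I)))
    rw [map_mul, ← exp_conj, hI', map_add, hI, conj_ofReal]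
    ring

theorem cover_all {R r : ℝ} (hr : 0 < r) (hR : r < R) {x : ℂ} (hx : ‖x‖ ≤ R)
    (h2 : ‖x‖ = R ∨ R ≤ 2 * r) : ∃ y ∈ horseshoe R r, ‖x - y‖ ≤ r := by
  by_cases ha : 0 ≤ x.arg
  · obtain ⟨y, hy, h⟩ := cover_upper hr hR (norm_nonneg x) hx h2 ha (arg_le_pi x)
    rw [norm_mul_exp_arg_mul_I] at h
    exact ⟨y, hy, h⟩
  · push Not at ha
    have h3 := neg_pi_lt_arg x
    obtain ⟨y, hy, h⟩ := cover_upper hr hR (norm_nonneg x) hx h2 (θ := -x.arg) (by linarith)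
      (by linarith)
    refine ⟨conj y, horseshoe_conj hy, ?_⟩
    have h4 : x - conj y = conj (((‖x‖ : ℝ) : ℂ) * cexp (((-x.arg : ℝ) : ℂ) * I) - y) := by
      rw [map_sub, map_mul, conj_ofReal, ← exp_conj, map_mul, conj_ofReal, conj_I]
      congr 1
      conv_lhs => rw [← norm_mul_exp_arg_mul_I x]
      congr 2
      push_cast
      ring
    rw [h4, Complex.norm_conj]
    exact h

end Pool.Agent.W_8c5d11_h73
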