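import Pool.Agent.W_8c5d11_h73.Hs6

/-!
MP_8c5d11_gt: assembly (existence part).
-/

set_option autoImplicit false

open MeasureTheory Metric Set Complex Filter
open scoped ENNReal NNReal Real Topology ComplexConjugate

namespace Pool.Agent.W_8c5d11_h73

theorem sphere_cov {R r : ℝ} (hr : 0 < r) (hR : r < R) {S : Set ℂ} (hS : IsCompact S)
    (h : sphere (0 : ℂ) R ⊆ cthickening r S) (t : ℝ) :
    ∃ z ∈ S, ‖z - (R : ℂ) * cexp ((t : ℂ) * I)‖ ≤ r := by
  have h1 : (R : ℂ) * cexp ((t : ℂ) * I) ∈ cthickening r S := by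
    apply h
    rw [mem_sphere_zero_iff_norm, norm_mul, norm_exp_ofReal_mul_I, mul_one,
      Complex.norm_of_nonneg (hr.trans hR).le]
  rw [hS.cthickening_eq_biUnion_closedBall hr.le] at h1
  obtain ⟨z, hz, h2⟩ := mem_iUnion₂.1 h1
  refine ⟨z, hz, ?_⟩
  rw [mem_closedBall, dist_eq_norm, norm_sub_rev] at h2
  exact h2

/-- the part of `S` outside the disc still covers -/
theorem cov_out {R r : ℝ} {S : Set ℂ} {t : ℝ} (hR0 : 0 ≤ R)
    (h : ∃ z ∈ S, ‖z - (R : ℂ) * cexp ((t : ℂ) * I)‖ ≤ r) :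
    ∃ z ∈ S \ ball 0 (R - r), ‖z - (R : ℂ) * cexp ((t : ℂ) * I)‖ ≤ r := by
  obtain ⟨z, hz, h1⟩ := h
  refine ⟨z, ⟨hz, ?_⟩, h1⟩
  rw [mem_ball_zero_iff, not_lt]
  have h2 : ‖(R : ℂ) * cexp ((t : ℂ) * I)‖ = R := by
    rw [norm_mul, norm_exp_ofReal_mul_I, mul_one, Complex.norm_of_nonneg hR0]
  have h3 := norm_sub_norm_le ((R : ℂ) * cexp ((t : ℂ) * I)) z
  rw [norm_sub_rev, h2] at h3
  linarith

theorem lower_main {R r : ℝ} (hr : 0 < r) (hR : r < R) {S : Set ℂ} (hS : IsCompact S)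
    (hc : IsPreconnected (S \ ball 0 (R - r))) (h : sphere (0 : ℂ) R ⊆ cthickening r S) :
    ENNReal.ofReal (hlen R r) ≤ μH[1] (S \ ball 0 (R - r)) := by
  refine lower hr hR (hS.diff isOpen_ball) hc ?_ ?_
  · rintro z ⟨-, hz⟩
    rwa [mem_ball_zero_iff, not_lt] at hz
  · exact fun t => cov_out (hr.trans hR).le (sphere_cov hr hR hS h t)

theorem horseshoe_cov {R r : ℝ} (hr : 0 < r) (hR : r < R) :
    sphere (0 : ℂ) R ⊆ cthickening r (horseshoe R r) := by
  intro x hx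
  rw [mem_sphere_zero_iff_norm] at hx
  obtain ⟨y, hy, h⟩ := cover_all hr hR hx.le (Or.inl hx)
  exact mem_cthickening_of_dist_le x y r _ hy (by rw [dist_eq_norm]; exact h)

theorem horseshoe_cov' {R r : ℝ} (hr : 0 < r) (hR : r < R) (h2 : R ≤ 2 * r) :
    closedBall (0 : ℂ) R ⊆ cthickening r (horseshoe R r) := by
  intro x hx
  rw [mem_closedBall_zero_iff] at hx
  obtain ⟨y, hy, h⟩ := cover_all hr hR hx (Or.inr h2)
  exact mem_cthickening_of_dist_le x y r _ hy (by rw [dist_eq_norm]; exact h)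

theorem horseshoe_diff {R r : ℝ} (hR : r < R) : horseshoe R r \ ball 0 (R - r) = horseshoe R r := by
  ext z
  constructor
  · exact fun h => h.1
  · intro h
    refine ⟨h, ?_⟩
    rw [mem_ball_zero_iff, not_lt]
    exact horseshoe_out hR z h

theorem horseshoe_length {R r : ℝ} (hr : 0 < r) (hR : r < R) :
    μH[1] (horseshoe R r) = ENNReal.ofReal (hlen R r) := by
  apply le_antisymm (horseshoe_le hr hR)
  have h1 := lower_main hr hR (horseshoe_compact R r)
    (by rw [horseshoe_diff hR]; exact (horseshoe_connected hr hR).isPreconnected)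
    (horseshoe_cov hr hR)
  rwa [horseshoe_diff hR] at h1

end Pool.Agent.W_8c5d11_h73
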