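import Pool.Agent.W_8c5d11_h73.Hs4
import Pool.Agent.W_8c5d11_h22.L1
import Pool.Agent.W_8c5d11_h22.L4b

/-!
MP_8c5d11_gt, uniqueness: if `F` preserves the length of all pieces of a continuum `S`, then
`|z - w| ≤ |F z - F w|` on `S`.
-/

set_option autoImplicit false

open MeasureTheory Metric Set Filter
open scoped ENNReal NNReal Real Topology

namespace Pool.Agent.W_8c5d11_h73

open Pool.Agent.W_8c5d11_h22

theorem null_singleton (z : ℂ) : μH[1] ({z} : Set ℂ) = 0 :=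
  (Measure.nullSingletonClass_hausdorff ℂ one_pos).measure_singleton z

/-- the fold argument: the value at an intermediate point lies below the larger end value -/
theorem fold_aux {S : Set ℂ} {F : ℂ → ℝ} (hF : ContinuousOn F S) (hfin : μH[1] S ≠ ⊤)
    (hm : ∀ B : Set ℂ, MeasurableSet B → volume (F '' (S ∩ B)) = μH[1] (S ∩ B)) {f : ℝ → ℂ}
    (hfS : ∀ t, f t ∈ S) (hfc : ContinuousOn f (Icc (0:ℝ) 1)) (hfi : InjOn f (Icc (0:ℝ) 1))
    {s : ℝ} (hs : s ∈ Icc (0:ℝ) 1) :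
    volume (F '' (f '' Icc 0 s) ∩ F '' (f '' Icc s 1)) = 0 := by
  have k1 : IsCompact (f '' Icc 0 s) :=
    isCompact_Icc.image_of_continuousOn (hfc.mono (Icc_subset_Icc_right hs.2))
  have k2 : IsCompact (f '' Icc s 1) :=
    isCompact_Icc.image_of_continuousOn (hfc.mono (Icc_subset_Icc_left hs.1))
  have s1 : f '' Icc 0 s ⊆ S := by rintro _ ⟨t, -, rfl⟩; exact hfS t
  have s2 : f '' Icc s 1 ⊆ S := by rintro _ ⟨t, -, rfl⟩; exact hfS t
  have m1 : ∀ A : Set ℂ, MeasurableSet A → A ⊆ S → volume (F '' A) = μH[1] A := by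
    intro A hA hAS
    have h := hm A hA
    rwa [inter_eq_self_of_subset_right hAS] at h
  have e1 := m1 _ k1.measurableSet s1
  have e2 := m1 _ k2.measurableSet s2
  have e3 := m1 _ (k1.union k2).measurableSet (union_subset s1 s2)
  have k3 : MeasurableSet (F '' (f '' Icc s 1)) := (k2.image_of_continuousOn (hF.mono s2)).measurableSet
  have h1 := measure_union_add_inter (μ := volume) (F '' (f '' Icc 0 s)) k3
  rw [← image_union, e3, e1, e2] at h1
  have h2 := measure_union_add_inter (μ := (μH[1] : Measure ℂ)) (f '' Icc 0 s) k2.measurableSet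
  have h3 : f '' Icc 0 s ∩ f '' Icc s 1 ⊆ {f s} := by
    rintro _ ⟨⟨t, ht, rfl⟩, ⟨u, hu, hut⟩⟩
    have h4 : u = t := hfi ⟨hs.1.trans hu.1, hu.2⟩ ⟨ht.1, ht.2.trans hs.2⟩ hut
    have h5 : t = s := le_antisymm ht.2 (h4 ▸ hu.1)
    rw [h5]
    exact mem_singleton _
  have h4 : μH[1] (f '' Icc 0 s ∩ f '' Icc s 1) = 0 :=
    measure_mono_null h3 (null_singleton _)
  rw [h4, add_zero] at h2
  rw [← h2] at h1
  have h5 : μH[1] (f '' Icc 0 s ∪ f '' Icc s 1) ≠ ⊤ :=
    ne_top_of_le_ne_top hfin (measure_mono (union_subset s1 s2))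
  have h6 := ENNReal.add_right_inj h5 (b := volume (F '' (f '' Icc 0 s) ∩ F '' (f '' Icc s 1)))
    (c := 0)
  exact h6.1 (by rw [h1, add_zero])

theorem star {S : Set ℂ} {F : ℂ → ℝ} (hS : IsCompact S) (hc : IsPreconnected S)
    (hF : ContinuousOn F S) (hfin : μH[1] S ≠ ⊤)
    (hm : ∀ B : Set ℂ, MeasurableSet B → volume (F '' (S ∩ B)) = μH[1] (S ∩ B)) {z w : ℂ}
    (hz : z ∈ S) (hw : w ∈ S) : ‖z - w‖ ≤ |F z - F w| := by
  by_cases hzw : z = w
  · rw [hzw, sub_self, norm_zero]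
    exact abs_nonneg _
  obtain ⟨f, hfS, hf0, hf1, hfc, hfi⟩ := exists_arc hS hc hfin hz hw hzw
  have hγS : f '' Icc 0 1 ⊆ S := by rintro _ ⟨t, -, rfl⟩; exact hfS t
  have hFf : ContinuousOn (fun t => F (f t)) (Icc (0:ℝ) 1) :=
    hF.comp hfc fun t _ => hfS t
  -- the two intervals
  have hint : ∀ {u v x y : ℝ}, x ∈ Icc u v → y ∈ Icc u v → Icc u v ⊆ Icc (0:ℝ) 1 →
      Icc (F (f x)) (F (f y)) ⊆ F '' (f '' Icc u v) := by
    intro u v x y hx hy huv
    have h1 : IsPreconnected ((fun t => F (f t)) '' Icc u v) :=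
      isPreconnected_Icc.image _ (hFf.mono huv)
    have h2 := h1.ordConnected.out (mem_image_of_mem _ hx) (mem_image_of_mem _ hy)
    rw [image_image]
    exact h2
  have hup : ∀ s ∈ Icc (0:ℝ) 1, F (f s) ≤ max (F z) (F w) ∧ min (F z) (F w) ≤ F (f s) := by
    intro s hs
    have h0 := fold_aux hF hfin hm hfS hfc hfi hs
    have i1 : Icc 0 s ⊆ Icc (0:ℝ) 1 := Icc_subset_Icc_right hs.2
    have i2 : Icc s 1 ⊆ Icc (0:ℝ) 1 := Icc_subset_Icc_left hs.1
    have l0 : (0:ℝ) ∈ Icc 0 s := ⟨le_rfl, hs.1⟩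
    have ls : s ∈ Icc 0 s := ⟨hs.1, le_rfl⟩
    have ls' : s ∈ Icc s 1 := ⟨le_rfl, hs.2⟩
    have l1 : (1:ℝ) ∈ Icc s 1 := ⟨hs.2, le_rfl⟩
    constructor
    · by_contra hcon
      push Not at hcon
      have h1 := hint l0 ls i1
      have h2 := hint l1 ls' i2
      rw [hf0] at h1
      rw [hf1] at h2
      have h3 : Icc (max (F z) (F w)) (F (f s)) ⊆ F '' (f '' Icc 0 s) ∩ F '' (f '' Icc s 1) :=
        subset_inter ((Icc_subset_Icc_left (le_max_left _ _)).trans h1)
          ((Icc_subset_Icc_left (le_max_right _ _)).trans h2)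
      have h4 := measure_mono_null h3 h0
      rw [Real.volume_Icc, ENNReal.ofReal_eq_zero] at h4
      linarith
    · by_contra hcon
      push Not at hcon
      have h1 := hint ls l0 i1
      have h2 := hint ls' l1 i2
      rw [hf0] at h1
      rw [hf1] at h2
      have h3 : Icc (F (f s)) (min (F z) (F w)) ⊆ F '' (f '' Icc 0 s) ∩ F '' (f '' Icc s 1) :=
        subset_inter ((Icc_subset_Icc_right (min_le_left _ _)).trans h1)
          ((Icc_subset_Icc_right (min_le_right _ _)).trans h2)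
      have h4 := measure_mono_null h3 h0
      rw [Real.volume_Icc, ENNReal.ofReal_eq_zero] at h4
      linarith
  have hγc : IsCompact (f '' Icc 0 1) := isCompact_Icc.image_of_continuousOn hfc
  have hγm := hm _ hγc.measurableSet
  rw [inter_eq_self_of_subset_right hγS] at hγm
  have h1 : edist z w ≤ μH[1] (f '' Icc 0 1) := by
    refine edist_le_length (isPreconnected_Icc.image _ hfc) ?_ ?_
    · exact ⟨0, ⟨le_rfl, zero_le_one⟩, hf0⟩
    · exact ⟨1, ⟨zero_le_one, le_rfl⟩, hf1⟩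
  have h2 : F '' (f '' Icc 0 1) ⊆ Icc (min (F z) (F w)) (max (F z) (F w)) := by
    rintro _ ⟨_, ⟨s, hs, rfl⟩, rfl⟩
    exact ⟨(hup s hs).2, (hup s hs).1⟩
  have h3 : edist z w ≤ ENNReal.ofReal |F z - F w| := by
    calc edist z w ≤ volume (F '' (f '' Icc 0 1)) := by rw [hγm]; exact h1
      _ ≤ volume (Icc (min (F z) (F w)) (max (F z) (F w))) := measure_mono h2
      _ = ENNReal.ofReal |F z - F w| := by rw [Real.volume_Icc, max_sub_min_eq_abs']
  rw [edist_dist, dist_eq_norm] at h3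
  exact (ENNReal.ofReal_le_ofReal_iff (abs_nonneg _)).1 h3

end Pool.Agent.W_8c5d11_h73
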