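import Pool.Agent.W_8c5d11_h73.Hs7
import Pool.Agent.W_8c5d11_h73.Hs8

/-!
MP_8c5d11_gt, uniqueness: a set of least length is contained in a rotated horseshoe.
-/

set_option autoImplicit false

open MeasureTheory Metric Set Complex Filter
open scoped ENNReal NNReal Real Topology

namespace Pool.Agent.W_8c5d11_h73

theorem meas_eq {S : Set ℂ} {F : ℂ → ℝ} (hfin : μH[1] S ≠ ⊤)
    (hle : ∀ A ⊆ S, volume (F '' A) ≤ μH[1] A) (htot : μH[1] S ≤ volume (F '' S)) (B : Set ℂ)
    (hB : MeasurableSet B) : volume (F '' (S ∩ B)) = μH[1] (S ∩ B) := by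
  apply le_antisymm (hle _ inter_subset_left)
  have h1 : μH[1] (S ∩ B) + μH[1] (S \ B) = μH[1] S := measure_inter_add_diff S hB
  have h2 : volume (F '' S) ≤ volume (F '' (S ∩ B)) + volume (F '' (S \ B)) := by
    have h3 : F '' S = F '' (S ∩ B) ∪ F '' (S \ B) := by
      rw [← image_union, inter_union_diff]
    rw [h3]
    exact measure_union_le _ _
  have h4 := hle (S \ B) diff_subset
  have h5 : μH[1] (S \ B) ≠ ⊤ := ne_top_of_le_ne_top hfin (measure_mono diff_subset)
  have h6 : μH[1] (S ∩ B) + μH[1] (S \ B) ≤ volume (F '' (S ∩ B)) + μH[1] (S \ B) := by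
    rw [h1]
    exact htot.trans (h2.trans (by gcongr))
  exact (ENNReal.add_le_add_iff_right h5).1 h6

/-- The data of a set of least length: `S` with a missing ray `ω` and the gap `t`. -/
structure Ext (R r : ℝ) (S : Set ℂ) (ω t : ℝ) : Prop where
  comp : IsCompact S
  out : ∀ z ∈ S, R - r ≤ ‖z‖
  low : ω - hang R r ≤ t
  upp : t ≤ ω + hang R r
  img : Fm (R - r) ω (t + hang R r) (t + 2 * π - hang R r) '' S =
    Icc (-hseg R r) ((R - r) * (2 * π - 2 * hang R r) + hseg R r)
  star : ∀ z ∈ S, ∀ w ∈ S, ‖z - w‖ ≤ |Fm (R - r) ω (t + hang R r) (t + 2 * π - hang R r) z -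
    Fm (R - r) ω (t + hang R r) (t + 2 * π - hang R r) w|

theorem exists_ext {R r : ℝ} (hr : 0 < r) (hR : r < R) {S : Set ℂ} (hS : IsCompact S)
    (hconn : IsPreconnected S) (hout : ∀ z ∈ S, R - r ≤ ‖z‖)
    (hcov : ∀ t : ℝ, ∃ z ∈ S, ‖z - (R : ℂ) * cexp ((t : ℂ) * I)‖ ≤ r)
    (hlen' : μH[1] S = ENNReal.ofReal (hlen R r)) : ∃ ω t : ℝ, Ext R r S ω t := by
  have ha : 0 < R - r := by linarith
  have hfin : μH[1] S ≠ ⊤ := by rw [hlen']; exact ENNReal.ofReal_ne_top
  by_cases hray : ∃ ω : ℝ, ∀ z ∈ S, ∀ ρ : ℝ, 0 ≤ ρ → z ≠ (ρ : ℂ) * cexp ((ω : ℂ) * I)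
  · obtain ⟨ω, hω⟩ := hray
    have hc : ContinuousOn (Th ω) S := fun z hz => (Th_cont ω (hω z hz)).continuousWithinAt
    obtain ⟨t, ⟨z1, hz1, h1, h2⟩, z2, hz2, h3, h4⟩ := exists_gap hr hR hS hc hcov
    obtain ⟨f1, f2, f3, f4⟩ := arccos_facts hr hR
    have hm : hseg R r = R * Real.sin (hang R r) - r := by
      unfold hseg hang
      rw [f4]
    have hφe : Real.arccos ((R - r) / R) = hang R r := rfl
    rw [hφe] at h2 h4 f1 f2 f3 f4
    have hπ := Real.pi_gt_three
    have hαβ : t + hang R r < t + 2 * π - hang R r := by linarith [Real.pi_pos]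
    have hFc := Fm_cont (a := R - r) hαβ.le hc
    set F := Fm (R - r) ω (t + hang R r) (t + 2 * π - hang R r) with hF
    have g1 : F z1 ≤ -hseg R r := by
      rw [hF]
      unfold Fm
      rw [if_pos (by linarith [(abs_le.1 h2).2])]
      have h5 := (abs_le.1 (im_near h1 (t + hang R r))).2
      rw [show t - (t + hang R r) = -hang R r by ring, Real.sin_neg] at h5
      rw [hm]
      linarith
    have g2 : (R - r) * (2 * π - 2 * hang R r) + hseg R r ≤ F z2 := by
      rw [hF, Fm_ge hαβ (by linarith [(abs_le.1 h4).1])]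
      have h5 := (abs_le.1 (im_near h3 (t + 2 * π - hang R r))).1
      rw [show t - (t + 2 * π - hang R r) = hang R r - 2 * π by ring,
        Real.sin_sub_two_pi] at h5
      rw [hm]
      linarith
    have hvol : volume (F '' S) ≤ ENNReal.ofReal (hlen R r) := by
      rw [← hlen']
      exact Fm_vol ha S hout
    -- the image is an interval
    have hne : S.Nonempty := ⟨z1, hz1⟩
    have hic : IsCompact (F '' S) := hS.image_of_continuousOn hFc
    have hico : IsConnected (F '' S) := ⟨hne.image F, hconn.image _ hFc⟩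
    have hicc := eq_Icc_csInf_csSup_of_connected_bdd_closed hico hic.bddBelow hic.bddAbove
      hic.isClosed
    set u := sInf (F '' S) with hu
    set v := sSup (F '' S) with hv
    have hu1 : u ≤ F z1 := csInf_le hic.bddBelow (mem_image_of_mem _ hz1)
    have hv1 : F z2 ≤ v := le_csSup hic.bddAbove (mem_image_of_mem _ hz2)
    rw [hicc, Real.volume_Icc] at hvol
    have hseg0 := (hseg_facts hr hR).1
    have hlen0 : 0 ≤ hlen R r := by
      rw [hlen_eq]
      have : 0 ≤ 2 * (R - r) * (π - hang R r) := mul_nonneg (by linarith) (by linarith)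
      linarith
    have hvu : v - u ≤ hlen R r := (ENNReal.ofReal_le_ofReal_iff hlen0).1 hvol
    have hlen1 : hlen R r = 2 * hseg R r + (R - r) * (2 * π - 2 * hang R r) := by
      rw [hlen_eq]
      ring
    have hu2 : u = -hseg R r := by linarith
    have hv2 : v = (R - r) * (2 * π - 2 * hang R r) + hseg R r := by linarith
    have hm' : ∀ B : Set ℂ, MeasurableSet B → volume (F '' (S ∩ B)) = μH[1] (S ∩ B) := by
      refine meas_eq hfin (fun A hA => Fm_vol ha A fun z hz => hout z (hA hz)) ?_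
      rw [hicc, Real.volume_Icc, hlen']
      apply ENNReal.ofReal_le_ofReal
      linarith
    refine ⟨ω, t, hS, hout, ?_, ?_, ?_, ?_⟩
    · linarith [(abs_le.1 h2).2, (Th_mem ω z1).1]
    · linarith [(abs_le.1 h4).1, (Th_mem ω z2).2]
    · rw [← hF, hicc, hu2, hv2]
    · exact fun z hz w hw => star hS hconn hFc hfin hm' hz hw
  · exfalso
    push Not at hray
    have h1 : Ioc 0 (2 * π * (R - r)) ⊆ (fun z => (R - r) * Th 0 z) '' S := by
      intro y hy
      obtain ⟨z, hz, ρ, hρ, hzρ⟩ := hray (y / (R - r))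
      refine ⟨z, hz, ?_⟩
      have h2 : 0 < ρ := by
        rcases hρ.eq_or_lt with h3 | h3
        · exfalso
          have h4 := hout z hz
          rw [hzρ, ← h3] at h4
          simp at h4
          linarith
        · exact h3
      have h3 : Th 0 z = y / (R - r) := by
        rw [hzρ]
        apply Th_unique 0 h2
        constructor
        · exact div_pos hy.1 ha
        · rw [div_le_iff₀ ha, zero_add]
          exact hy.2
      show (R - r) * Th 0 z = y
      rw [h3]
      field_simp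
    have h2 : ENNReal.ofReal (2 * π * (R - r)) ≤ ENNReal.ofReal (hlen R r) := by
      calc ENNReal.ofReal (2 * π * (R - r)) = volume (Ioc 0 (2 * π * (R - r))) := by
            rw [Real.volume_Ioc, sub_zero]
        _ ≤ volume ((fun z => (R - r) * Th 0 z) '' S) := measure_mono h1
        _ ≤ μH[1] S := by
          refine vol_le S ha 0 0 hout _ (fun _ => 1) measurable_const ?_ ?_
          · intro z w h2 _
            exact absurd rfl h2
          · intro z _
            rw [add_zero]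
        _ = ENNReal.ofReal (hlen R r) := hlen'
    have h3 : 0 < 2 * π * (R - r) := by positivity
    have h4 := (ENNReal.ofReal_le_ofReal_iff' (p := 2 * π * (R - r))).1 h2
    rcases h4 with h4 | h4
    · linarith [hlen_lt hr hR]
    · linarith

section Pos

variable {R r ω t : ℝ} {S : Set ℂ}

theorem hang_facts (hr : 0 < r) (hR : r < R) : 0 < hang R r ∧ hang R r < π / 2 :=
  ⟨(arccos_facts hr hR).1, (arccos_facts hr hR).2.1⟩

/-- the first part -/
theorem pos_low (hr : 0 < r) (hR : r < R) (h : Ext R r S ω t) {z : ℂ} (hz : z ∈ S)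
    (hT : Th ω z ≤ t + hang R r) :
    Fm (R - r) ω (t + hang R r) (t + 2 * π - hang R r) z ≤ 0 ∧
      (Fm (R - r) ω (t + hang R r) (t + 2 * π - hang R r) z = 0 → Th ω z = t + hang R r) := by
  obtain ⟨g1, g2⟩ := hang_facts hr hR
  have hz0 : 0 < ‖z‖ := lt_of_lt_of_le (by linarith) (h.out z hz)
  have hTm := Th_mem ω z
  have hupp := h.upp
  have h1 : Fm (R - r) ω (t + hang R r) (t + 2 * π - hang R r) z =
      ‖z‖ * Real.sin (Th ω z - (t + hang R r)) := by
    unfold Fm
    rw [if_pos hT, ← im_polar, Th_eq]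
  rw [h1]
  have hx0 : Th ω z - (t + hang R r) ≤ 0 := by linarith
  have hx1 : -π < Th ω z - (t + hang R r) := by linarith [hTm.1]
  constructor
  · exact mul_nonpos_of_nonneg_of_nonpos hz0.le
      (Real.sin_nonpos_of_nonpos_of_neg_pi_le hx0 hx1.le)
  · intro h2
    rcases mul_eq_zero.1 h2 with h3 | h3
    · exact absurd h3 hz0.ne'
    · by_contra hne
      have h4 : Th ω z - (t + hang R r) < 0 := lt_of_le_of_ne hx0 fun h5 => hne (by linarith)
      have h5 := Real.sin_neg_of_neg_of_neg_pi_lt h4 hx1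
      linarith

/-- the last part -/
theorem pos_high (hr : 0 < r) (hR : r < R) (h : Ext R r S ω t) {z : ℂ} (hz : z ∈ S)
    (hT : t + 2 * π - hang R r < Th ω z) :
    (R - r) * (2 * π - 2 * hang R r) <
      Fm (R - r) ω (t + hang R r) (t + 2 * π - hang R r) z := by
  obtain ⟨g1, g2⟩ := hang_facts hr hR
  have hz0 : 0 < ‖z‖ := lt_of_lt_of_le (by linarith) (h.out z hz)
  have hTm := Th_mem ω z
  have hlow := h.low
  have hπ := Real.pi_gt_three
  have h1 : Fm (R - r) ω (t + hang R r) (t + 2 * π - hang R r) z =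
      (R - r) * (2 * π - 2 * hang R r) + ‖z‖ * Real.sin (Th ω z - (t + 2 * π - hang R r)) := by
    rw [Fm_ge (by linarith) hT.le, ← im_polar, Th_eq]
    ring
  rw [h1]
  have hx0 : 0 < Th ω z - (t + 2 * π - hang R r) := by linarith
  have hx1 : Th ω z - (t + 2 * π - hang R r) < π := by linarith [hTm.2]
  have := mul_pos hz0 (Real.sin_pos_of_pos_of_lt_pi hx0 hx1)
  linarith

/-- the middle part -/
theorem pos_mid (z : ℂ) (hT1 : t + hang R r < Th ω z) (hT2 : Th ω z ≤ t + 2 * π - hang R r) :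
    Fm (R - r) ω (t + hang R r) (t + 2 * π - hang R r) z =
      (R - r) * (Th ω z - (t + hang R r)) := by
  unfold Fm
  rw [if_neg (by linarith), if_pos hT2]

/-- strictly between the two ends -/
theorem mid_of (hr : 0 < r) (hR : r < R) (h : Ext R r S ω t) {z : ℂ} (hz : z ∈ S)
    (h1 : 0 < Fm (R - r) ω (t + hang R r) (t + 2 * π - hang R r) z)
    (h2 : Fm (R - r) ω (t + hang R r) (t + 2 * π - hang R r) z <
      (R - r) * (2 * π - 2 * hang R r)) :
    t + hang R r < Th ω z ∧ Th ω z < t + 2 * π - hang R r := by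
  have ha : 0 < R - r := by linarith
  have h3 : t + hang R r < Th ω z := by
    by_contra hcon
    push Not at hcon
    linarith [(pos_low hr hR h hz hcon).1]
  refine ⟨h3, ?_⟩
  by_contra hcon
  push Not at hcon
  rcases hcon.eq_or_lt with h4 | h4
  · rw [pos_mid z h3 h4.ge, ← h4] at h2
    have h5 : t + 2 * π - hang R r - (t + hang R r) = 2 * π - 2 * hang R r := by ring
    rw [h5] at h2
    exact lt_irrefl _ h2
  · linarith [pos_high hr hR h hz h4]

/-- the middle part lies on the circle -/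
theorem mid_norm (hr : 0 < r) (hR : r < R) (h : Ext R r S ω t) {z : ℂ} (hz : z ∈ S)
    (h1 : 0 < Fm (R - r) ω (t + hang R r) (t + 2 * π - hang R r) z)
    (h2 : Fm (R - r) ω (t + hang R r) (t + 2 * π - hang R r) z <
      (R - r) * (2 * π - 2 * hang R r)) : ‖z‖ = R - r := by
  have ha : 0 < R - r := by linarith
  obtain ⟨h3, h4⟩ := mid_of hr hR h hz h1 h2
  by_contra hne
  have hgt : R - r < ‖z‖ := lt_of_le_of_ne (h.out z hz) fun h5 => hne h5.symm
  have hz0 : 0 < ‖z‖ := ha.trans hgt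
  set F := Fm (R - r) ω (t + hang R r) (t + 2 * π - hang R r) with hF
  -- choice of the step
  obtain ⟨δ, hδ0, hδ1, hδ2, hδ3⟩ : ∃ δ : ℝ, 0 < δ ∧ δ ≤ 1 ∧
      F z + (R - r) * δ < (R - r) * (2 * π - 2 * hang R r) ∧ ‖z‖ * δ < ‖z‖ - (R - r) := by
    have e1 : 0 < ((R - r) * (2 * π - 2 * hang R r) - F z) / (2 * (R - r)) :=
      div_pos (by linarith) (by linarith)
    have e2 : 0 < (‖z‖ - (R - r)) / (2 * ‖z‖) := div_pos (by linarith) (by linarith)
    refine ⟨min 1 (min (((R - r) * (2 * π - 2 * hang R r) - F z) / (2 * (R - r)))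
      ((‖z‖ - (R - r)) / (2 * ‖z‖))), ?_, min_le_left _ _, ?_, ?_⟩
    · exact lt_min one_pos (lt_min e1 e2)
    · have e3 : min 1 (min (((R - r) * (2 * π - 2 * hang R r) - F z) / (2 * (R - r)))
          ((‖z‖ - (R - r)) / (2 * ‖z‖))) ≤
          ((R - r) * (2 * π - 2 * hang R r) - F z) / (2 * (R - r)) :=
        (min_le_right _ _).trans (min_le_left _ _)
      have e4 := mul_le_mul_of_nonneg_left e3 ha.le
      have e5 : (R - r) * (((R - r) * (2 * π - 2 * hang R r) - F z) / (2 * (R - r))) =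
          ((R - r) * (2 * π - 2 * hang R r) - F z) / 2 := by field_simp
      rw [e5] at e4
      linarith
    · have e3 : min 1 (min (((R - r) * (2 * π - 2 * hang R r) - F z) / (2 * (R - r)))
          ((‖z‖ - (R - r)) / (2 * ‖z‖))) ≤ (‖z‖ - (R - r)) / (2 * ‖z‖) :=
        (min_le_right _ _).trans (min_le_right _ _)
      have e4 := mul_le_mul_of_nonneg_left e3 hz0.le
      have e5 : ‖z‖ * ((‖z‖ - (R - r)) / (2 * ‖z‖)) = (‖z‖ - (R - r)) / 2 := by field_simp
      rw [e5] at e4
      linarith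
  have hseg0 := (hseg_facts hr hR).1
  have hy : F z + (R - r) * δ ∈ F '' S := by
    rw [hF, h.img, ← hF]
    have := mul_pos ha hδ0
    constructor <;> linarith
  obtain ⟨z', hz', hFz'⟩ := hy
  have hFz'1 : 0 < F z' := by rw [hFz']; have := mul_pos ha hδ0; linarith
  have hFz'2 : F z' < (R - r) * (2 * π - 2 * hang R r) := by rw [hFz']; exact hδ2
  obtain ⟨h5, h6⟩ := mid_of hr hR h hz' hFz'1 hFz'2
  have h7 := pos_mid (R := R) (r := r) z h3 h4.le
  have h8 := pos_mid (R := R) (r := r) z' h5 h6.le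
  rw [← hF] at h7 h8
  have h9 : Th ω z' - Th ω z = δ := by
    have e1 : (R - r) * (Th ω z' - Th ω z) = (R - r) * δ := by
      rw [h8, h7] at hFz'
      linarith
    exact mul_left_cancel₀ ha.ne' e1
  have h10 := h.star z hz z' hz'
  rw [← hF, hFz'] at h10
  have h11 : |F z - (F z + (R - r) * δ)| = (R - r) * δ := by
    rw [show F z - (F z + (R - r) * δ) = -((R - r) * δ) by ring, abs_neg,
      abs_of_pos (mul_pos ha hδ0)]
  rw [h11] at h10
  have h12 := polar_dist ‖z‖ ‖z'‖ (Th ω z) (Th ω z')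
  rw [Th_eq, Th_eq] at h12
  have h13 : Real.cos (Th ω z - Th ω z') = Real.cos δ := by
    rw [← h9, ← Real.cos_neg]
    congr 1
    ring
  rw [h13] at h12
  have h14 : ‖z - z'‖ ^ 2 ≤ ((R - r) * δ) ^ 2 := pow_le_pow_left₀ (norm_nonneg _) h10 2
  have h15 := (abs_le.1 (Real.cos_bound (x := δ) (by rw [abs_of_pos hδ0]; exact hδ1))).2
  rw [abs_of_pos hδ0] at h15
  have hσ := h.out z' hz'
  have h16 : 0 ≤ 1 - Real.cos δ := by linarith [Real.cos_le_one δ]
  have h17 : 2 * ‖z‖ * (R - r) * (1 - Real.cos δ) ≤ ‖z - z'‖ ^ 2 := by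
    have e1 : 2 * ‖z‖ * (R - r) * (1 - Real.cos δ) ≤ 2 * ‖z‖ * ‖z'‖ * (1 - Real.cos δ) := by
      have : 2 * ‖z‖ * (R - r) ≤ 2 * ‖z‖ * ‖z'‖ :=
        mul_le_mul_of_nonneg_left hσ (by linarith)
      exact mul_le_mul_of_nonneg_right this h16
    rw [h12]
    nlinarith [sq_nonneg (‖z‖ - ‖z'‖)]
  have h18 : 2 * ‖z‖ * (1 - Real.cos δ) ≤ (R - r) * δ ^ 2 := by
    have e1 : (R - r) * (2 * ‖z‖ * (1 - Real.cos δ)) ≤ (R - r) * ((R - r) * δ ^ 2) := by
      nlinarith
    exact le_of_mul_le_mul_left e1 ha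
  have h19 : δ ^ 2 * (1 - 5 / 48 * δ ^ 2) ≤ 2 * (1 - Real.cos δ) := by nlinarith
  have h20 : ‖z‖ * (δ ^ 2 * (1 - 5 / 48 * δ ^ 2)) ≤ (R - r) * δ ^ 2 := by
    have e1 := mul_le_mul_of_nonneg_left h19 hz0.le
    linarith
  have h21 : ‖z‖ * (1 - 5 / 48 * δ ^ 2) ≤ R - r := by
    have e1 : δ ^ 2 * (‖z‖ * (1 - 5 / 48 * δ ^ 2)) ≤ δ ^ 2 * (R - r) := by linarith
    exact le_of_mul_le_mul_left e1 (by positivity)
  have h22 : δ ^ 2 ≤ δ := by nlinarith
  have h23 : ‖z‖ * (5 / 48 * δ ^ 2) ≤ ‖z‖ * δ := by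
    apply mul_le_mul_of_nonneg_left _ hz0.le
    nlinarith
  linarith

end Pos

end Pool.Agent.W_8c5d11_h73
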